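import Pool.Agent.H5.LF.Good
import Pool.Agent.H77.FB.Bridge

/-!
The a priori estimate for products of linear polynomials (MP_6e521b_an).
-/

set_option autoImplicit false

open MvPolynomial Filter Topology Pool.Agent.H77.FB Pool.Agent.H60.FB Pool.Agent.H77.N2

namespace Pool.Agent.H5.LF

theorem dt_mulVec {n k : ℕ} (a : Fin n → ℂ) (A : Matrix (Fin n) (Fin k) ℂ) (y : Fin k → ℂ) :
    dt a (A.mulVec y) = dt (Matrix.vecMul a A) y :=
  Matrix.dotProduct_mulVec a A y

theorem est_zero' {n : ℕ} : Est (0 : MvPolynomial (Fin n) ℂ) := by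
  intro ρ
  refine ⟨0, 0, fun f _ A _ z _ => ?_⟩
  rw [map_zero, zero_mul, zero_mul, norm_zero]

/-- If the forms have a common zero, reduce the number of variables. -/
theorem est_arr_ker {n : ℕ}
    (ih : ∀ k < n, ∀ (m : ℕ) (a : Fin m → Fin k → ℂ) (c : Fin m → ℂ),
      Est (∏ i, fac (a i) (c i)))
    (m : ℕ) (a : Fin m → Fin n → ℂ) (c : Fin m → ℂ)
    (h : ∃ v : Fin n → ℂ, v ≠ 0 ∧ ∀ i, dt (a i) v = 0) : Est (∏ i, fac (a i) (c i)) := by
  obtain ⟨v, hv0, hv⟩ := h
  set P : MvPolynomial (Fin n) ℂ := ∏ i, fac (a i) (c i) with hP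
  obtain ⟨k, Q, L, hL, hQ, hPL, -, -, horth⟩ := exists_reduction P
  have hPe : ∀ z, eval z P = ∏ i, (dt (a i) z + c i) := by
    intro z
    rw [hP, map_prod]
    exact Finset.prod_congr rfl fun i _ => eval_fac _ _ _
  have hvP : v ∈ Prd P := by
    intro z
    rw [hPe, hPe]
    exact Finset.prod_congr rfl fun i _ => by rw [dt_add', hv i, add_zero]
  have hk : k < n := by
    have hinj : Function.Injective L.conjTranspose.mulVecLin := by
      rw [injective_iff_map_eq_zero]
      intro y hy
      have h1 : L.mulVec (L.conjTranspose.mulVec y) = y := by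
        rw [Matrix.mulVec_mulVec, hL, Matrix.one_mulVec]
      rw [Matrix.mulVecLin_apply] at hy
      rw [← h1, hy, Matrix.mulVec_zero]
    have hle := LinearMap.finrank_le_finrank_of_injective hinj
    rw [Module.finrank_fin_fun, Module.finrank_fin_fun] at hle
    refine lt_of_le_of_ne hle fun hkn => hv0 ?_
    subst hkn
    have h1 : L.conjTranspose * L = 1 := mul_eq_one_comm.1 hL
    have h2 := horth (L.mulVec v) v hvP
    rw [Matrix.mulVec_mulVec, h1, Matrix.one_mulVec] at h2
    have h3 : ((∑ j, ‖v j‖ ^ 2 : ℝ) : ℂ) = 0 := by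
      push_cast
      rw [← h2]
      refine Finset.sum_congr rfl fun j _ => ?_
      rw [Complex.mul_conj, Complex.normSq_eq_norm_sq]
      push_cast
      rfl
    have h4 : ∑ j, ‖v j‖ ^ 2 = 0 := by exact_mod_cast h3
    funext j
    have h5 := (Finset.sum_eq_zero_iff_of_nonneg fun j _ => sq_nonneg _).1 h4 j
      (Finset.mem_univ j)
    exact norm_eq_zero.1 (pow_eq_zero_iff (two_ne_zero)|>.1 h5)
  have hQe : Q = ∏ i, fac (Matrix.vecMul (a i) L.conjTranspose) (c i) := by
    refine MvPolynomial.funext fun y => ?_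
    rw [hQ, hPe, map_prod]
    refine Finset.prod_congr rfl fun i _ => ?_
    rw [eval_fac, dt_mulVec]
  refine est_slice P Q L hL hQ hPL ?_
  rw [hQe]
  exact ih k hk m _ c

theorem fac_zero_one {n : ℕ} : fac (0 : Fin n → ℂ) 1 = 1 := by
  unfold fac
  simp

theorem star_prod {n m : ℕ} (a : Fin m → Fin n → ℂ) (c : Fin m → ℂ) :
    star' (∏ i, fac (a i) (c i)) = ∏ i, fac (cj (a i)) ((starRingEnd ℂ) (c i)) := by
  refine MvPolynomial.funext fun w => ?_
  rw [eval_star', map_prod, map_prod, map_prod]
  refine Finset.prod_congr rfl fun i _ => ?_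
  rw [eval_fac, eval_fac, map_add]
  congr 1
  unfold dt
  rw [map_sum]
  refine Finset.sum_congr rfl fun j _ => ?_
  rw [map_mul]
  congr 1
  exact Complex.conj_conj _

theorem star_add {n : ℕ} (P Q : MvPolynomial (Fin n) ℂ) :
    star' (P + Q) = star' P + star' Q := by
  refine MvPolynomial.funext fun w => ?_
  rw [eval_star', map_add, map_add, map_add, eval_star', eval_star']

theorem dt_cj {n : ℕ} (a z : Fin n → ℂ) : dt (cj a) z = (starRingEnd ℂ) (dt a (cj z)) := by
  unfold dt
  rw [map_sum]
  refine Finset.sum_congr rfl fun j _ => ?_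
  rw [map_mul]
  congr 1
  exact (Complex.conj_conj _).symm

theorem norm_cj' {n : ℕ} (z : Fin n → ℂ) : ‖cj z‖ = ‖z‖ := by
  apply le_antisymm
  · rw [pi_norm_le_iff_of_nonneg (norm_nonneg _)]
    intro j
    change ‖(starRingEnd ℂ) (z j)‖ ≤ _
    rw [Complex.norm_conj]
    exact norm_le_pi_norm z j
  · rw [pi_norm_le_iff_of_nonneg (norm_nonneg _)]
    intro j
    have h1 := norm_le_pi_norm (cj z) j
    change ‖(starRingEnd ℂ) (z j)‖ ≤ _ at h1
    rwa [Complex.norm_conj] at h1

theorem smallR_star {n m : ℕ} {a : Fin m → Fin n → ℂ} {c : Fin m → ℂ}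
    {R : MvPolynomial (Fin n) ℂ} (h : SmallR a c R) :
    SmallR (fun i => cj (a i)) (fun i => (starRingEnd ℂ) (c i)) (star' R) := by
  intro ε hε
  obtain ⟨M, hM⟩ := h ε hε
  refine ⟨M, fun z hz => ?_⟩
  have h1 := hM (cj z) (by rwa [norm_cj'])
  rw [eval_star', Complex.norm_conj]
  refine h1.trans (le_of_eq ?_)
  congr 1
  refine Finset.prod_congr rfl fun i _ => ?_
  rw [dt_cj, ← map_add, Complex.norm_conj]

theorem smallR_zero {n m : ℕ} (a : Fin m → Fin n → ℂ) (c : Fin m → ℂ) : SmallR a c 0 := by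
  intro ε hε
  refine ⟨0, fun z _ => ?_⟩
  rw [map_zero, norm_zero]
  exact mul_nonneg hε.le (Finset.prod_nonneg fun i _ => by positivity)

theorem est_step {n : ℕ}
    (hker : ∀ (m : ℕ) (a : Fin m → Fin n → ℂ) (c : Fin m → ℂ),
      (∃ v : Fin n → ℂ, v ≠ 0 ∧ ∀ i, dt (a i) v = 0) → Est (∏ i, fac (a i) (c i)))
    (m : ℕ) (a : Fin m → Fin n → ℂ) (c : Fin m → ℂ) (R : MvPolynomial (Fin n) ℂ)
    (hR : SmallR a c R) (hR0 : R = 0 ∨ ∀ v : Fin n → ℂ, (∀ i, dt (a i) v = 0) → v = 0)
    (hne : ∀ i, fac (a i) (c i) ≠ 0) : Est (∏ i, fac (a i) (c i) + R) := by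
  classical
  by_cases hP : ∏ i, fac (a i) (c i) + R = 0
  · rw [hP]
    exact est_zero'
  · refine est_of_weights _ hP ?_
    rw [star_add, star_prod]
    refine arr_good (fun i => cj (a i)) (fun i => (starRingEnd ℂ) (c i)) (fun i => ?_)
      (star' R) (smallR_star hR) ?_ ?_
    · by_contra hcon
      push Not at hcon
      apply hne i
      have h1 : a i = 0 := by
        rw [← cj_cj' (a i), hcon.1]
        funext j
        exact map_zero _
      have h2 : c i = 0 := by
        rw [← Complex.conj_conj (c i), hcon.2, map_zero]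
      rw [h1, h2]
      unfold fac
      simp
    · rcases hR0 with h0 | h0
      · left
        rw [h0]
        refine MvPolynomial.funext fun w => ?_
        rw [eval_star', map_zero, map_zero, map_zero]
      · right
        intro v hv
        have h1 : cj v = 0 := h0 (cj v) fun i => by
          have h2 := hv i
          rw [dt_cj] at h2
          exact (map_eq_zero _).1 h2
        rw [← cj_cj' v, h1]
        funext j
        exact map_zero _
    · rintro J mu ⟨v, hv0, hv⟩
      have e : ∏ i ∈ J, fac (cj (a i)) (mu i) =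
          ∏ i, fac (if i ∈ J then cj (a i) else 0) (if i ∈ J then mu i else 1) := by
        rw [← Finset.prod_mul_prod_compl J
          (fun i => fac (if i ∈ J then cj (a i) else 0) (if i ∈ J then mu i else 1))]
        have e1 : ∏ i ∈ Jᶜ, fac (if i ∈ J then cj (a i) else (0 : Fin n → ℂ))
            (if i ∈ J then mu i else 1) = 1 := by
          refine Finset.prod_eq_one fun i hi => ?_
          rw [if_neg (Finset.mem_compl.1 hi), if_neg (Finset.mem_compl.1 hi), fac_zero_one]
        rw [e1, mul_one]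
        refine Finset.prod_congr rfl fun i hi => ?_
        rw [if_pos hi, if_pos hi]
      rw [e]
      refine hker m _ _ ⟨v, hv0, fun i => ?_⟩
      by_cases hi : i ∈ J
      · rw [if_pos hi]
        exact hv i hi
      · rw [if_neg hi]
        exact dt_zero_left v

/-- The a priori estimate for every product of polynomials of degree at most one. -/
theorem est_arr (n : ℕ) : ∀ (m : ℕ) (a : Fin m → Fin n → ℂ) (c : Fin m → ℂ),
    Est (∏ i, fac (a i) (c i)) := by
  induction n using Nat.strong_induction_on with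
  | _ n ih =>
    intro m a c
    by_cases hP : (∏ i, fac (a i) (c i)) = 0
    · rw [hP]
      exact est_zero'
    · have h1 := est_step (est_arr_ker ih) m a c 0 (smallR_zero a c) (Or.inl rfl)
        fun i => Finset.prod_ne_zero_iff.1 hP i (Finset.mem_univ i)
      rwa [add_zero] at h1

/-- A polynomial which tends to zero along a line vanishes on the line. -/
theorem eval_eq_zero_of_small {n m : ℕ} {a : Fin m → Fin n → ℂ} {c : Fin m → ℂ}
    {R : MvPolynomial (Fin n) ℂ} (hR : SmallR a c R) {v : Fin n → ℂ} (hv : v ≠ 0)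
    (hav : ∀ i, dt (a i) v = 0) (z : Fin n → ℂ) : eval z R = 0 := by
  set r : Polynomial ℂ :=
    aeval (fun i => Polynomial.C (z i) + Polynomial.X * Polynomial.C (v i)) R with hr
  have hre : ∀ t : ℂ, r.eval t = eval (fun i => z i + t * v i) R := by
    intro t
    have h1 : r.eval t = Polynomial.evalRingHom t (aeval
        (fun i => Polynomial.C (z i) + Polynomial.X * Polynomial.C (v i)) R) := rfl
    rw [h1, MvPolynomial.aeval_def, MvPolynomial.hom_eval₂]
    have h2 : (Polynomial.evalRingHom t).comp (algebraMap ℂ (Polynomial ℂ)) = RingHom.id ℂ := by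
      ext c
      simp
    rw [h2]
    change eval₂ (RingHom.id ℂ) _ R = eval₂ (RingHom.id ℂ) _ R
    congr 1
    funext i
    simp only [Polynomial.coe_evalRingHom, Polynomial.eval_add,
      Polynomial.eval_C, Polynomial.eval_mul, Polynomial.eval_X]
  have hz0 : eval z R = r.eval 0 := by
    rw [hre]
    congr 2
    funext i
    ring
  set L : ℝ := ∏ i, (1 + ‖dt (a i) z + c i‖) with hL
  have hL0 : 0 ≤ L := Finset.prod_nonneg fun i _ => by positivity
  have hlim : Tendsto (fun t : ℝ => ‖r.eval (t : ℂ)‖) atTop (𝓝 0) := by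
    rw [Metric.tendsto_nhds]
    intro ε hε
    obtain ⟨M, hM⟩ := hR (ε / (L + 1)) (by positivity)
    have hvn : 0 < ‖v‖ := norm_pos_iff.2 hv
    filter_upwards [eventually_ge_atTop ((M + ‖z‖) / ‖v‖), eventually_ge_atTop 0] with t ht ht0
    have e : (fun i => z i + (t : ℂ) * v i) = z + (t : ℂ) • v := rfl
    rw [hre, e, dist_zero_right, norm_norm]
    have h1 : M ≤ ‖z + (t : ℂ) • v‖ := by
      have h2 : ‖(t : ℂ) • v‖ = t * ‖v‖ := by
        rw [norm_smul, Complex.norm_real, Real.norm_of_nonneg ht0]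
      have h3 := norm_sub_le (z + (t : ℂ) • v) z
      rw [add_sub_cancel_left, h2] at h3
      have h4 := (div_le_iff₀ hvn).1 ht
      linarith
    have h2 := hM _ h1
    have h3 : ∏ i, (1 + ‖dt (a i) (z + (t : ℂ) • v) + c i‖) = L := by
      refine Finset.prod_congr rfl fun i _ => ?_
      have : dt (a i) ((t : ℂ) • v) = 0 := by
        rw [← dl_apply, map_smul, dl_apply, hav i, smul_zero]
      rw [dt_add', this, add_zero]
    rw [h3] at h2
    refine h2.trans_lt ?_
    rw [div_mul_eq_mul_div, div_lt_iff₀ (by positivity)]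
    nlinarith
  have hdeg : r.degree ≤ 0 := by
    by_contra hcon
    have h1 := r.tendsto_norm_atTop (not_le.1 hcon)
      (z := fun t : ℝ => (t : ℂ)) (l := atTop) (by
        simp only [Complex.norm_real, Real.norm_eq_abs]
        exact tendsto_abs_atTop_atTop)
    exact not_tendsto_nhds_of_tendsto_atTop h1 0 hlim
  have hcst := Polynomial.eq_C_of_degree_le_zero hdeg
  rw [hz0]
  have h2 : Tendsto (fun _ : ℝ => ‖r.eval 0‖) atTop (𝓝 0) := by
    refine hlim.congr fun t => ?_
    rw [hcst, Polynomial.eval_C, Polynomial.eval_C]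
  exact norm_eq_zero.1 (tendsto_nhds_unique tendsto_const_nhds h2)

/-- The a priori estimate for products of polynomials of degree at most one with a small
perturbation. -/
theorem est_pert {n m : ℕ} (a : Fin m → Fin n → ℂ) (c : Fin m → ℂ)
    (R : MvPolynomial (Fin n) ℂ) (hR : SmallR a c R)
    (hne : R = 0 ∨ ∀ i, a i ≠ 0 ∨ c i ≠ 0) : Est (∏ i, fac (a i) (c i) + R) := by
  by_cases hR0 : R = 0
  · rw [hR0, add_zero]
    exact est_arr n m a c
  · have hk : ∀ v : Fin n → ℂ, (∀ i, dt (a i) v = 0) → v = 0 := by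
      intro v hv
      by_contra hv0
      exact hR0 (MvPolynomial.funext fun z => by
        rw [eval_eq_zero_of_small hR hv0 hv z, map_zero])
    refine est_step (fun m' a' c' _ => est_arr n m' a' c') m a c R hR (Or.inr hk) fun i h0 => ?_
    rcases hne with hne | hne
    · exact hR0 hne
    · exact fac_ne_zero (hne i) h0

end Pool.Agent.H5.LF
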