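import Pool.Agent.H5.LF.Env
import Pool.Agent.H77.N2.EstW

/-!
Weights for hyperplane arrangements: the estimates (MP_6e521b_an, products of linear
polynomials).
-/

set_option autoImplicit false

open MvPolynomial Filter Topology Pool.Agent.H77.FB Pool.Agent.H60.FB Pool.Agent.H77.N2

namespace Pool.Agent.H5.LF

open scoped InnerProductSpace

variable {n : ℕ}

/-- the point of the euclidean space -/
noncomputable def eu (z : Fin n → ℂ) : EuclideanSpace ℂ (Fin n) := WithLp.toLp 2 z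

theorem eu_add (z w : Fin n → ℂ) : eu (z + w) = eu z + eu w := rfl

theorem eu_sub (z w : Fin n → ℂ) : eu (z - w) = eu z - eu w := rfl

theorem eu_norm_sq (z : Fin n → ℂ) : ‖eu z‖ ^ 2 = Pool.Agent.H60.FB.sq z := by
  rw [EuclideanSpace.norm_sq_eq]
  rfl

theorem eu_norm (z : Fin n → ℂ) : ‖eu z‖ = nrm z := by
  unfold nrm
  rw [← eu_norm_sq, Real.sqrt_sq (norm_nonneg _)]

theorem inner_eu (z w : Fin n → ℂ) : ⟪eu z, eu w⟫_ℂ = dt (cj z) w := by
  rw [PiLp.inner_apply]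
  unfold dt
  refine Finset.sum_congr rfl (fun j _ => ?_)
  rw [RCLike.inner_apply, mul_comm]
  rfl

theorem norm_le_eu (z : Fin n → ℂ) : ‖z‖ ≤ ‖eu z‖ := by
  rw [pi_norm_le_iff_of_nonneg (norm_nonneg _)]
  intro j
  exact PiLp.norm_apply_le (eu z) j

theorem sq_le_norm (z : Fin n → ℂ) : Pool.Agent.H60.FB.sq z ≤ n * ‖z‖ ^ 2 := by
  unfold Pool.Agent.H60.FB.sq
  calc ∑ j, ‖z j‖ ^ 2 ≤ ∑ _j : Fin n, ‖z‖ ^ 2 :=
        Finset.sum_le_sum fun j _ => pow_le_pow_left₀ (norm_nonneg _) (norm_le_pi_norm z j) 2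
    _ = n * ‖z‖ ^ 2 := by simp

theorem eu_le_norm (z : Fin n → ℂ) : ‖eu z‖ ≤ √n * ‖z‖ := by
  have h1 := sq_le_norm z
  rw [← eu_norm_sq] at h1
  apply le_of_sq_le_sq _ (by positivity)
  rw [mul_pow, Real.sq_sqrt (Nat.cast_nonneg n)]
  exact h1

/-- the projection along a unit vector -/
noncomputable def pj (u : EuclideanSpace ℂ (Fin n)) :
    EuclideanSpace ℂ (Fin n) →ₗ[ℂ] EuclideanSpace ℂ (Fin n) where
  toFun x := x - ⟪u, x⟫_ℂ • u
  map_add' x y := by
    rw [inner_add_right, add_smul]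
    abel
  map_smul' c x := by
    rw [inner_smul_right, mul_smul, RingHom.id_apply, smul_sub]

theorem isProj_pj {ι : Type*} (u : ι → EuclideanSpace ℂ (Fin n)) (hu : ∀ i, ‖u i‖ = 1) :
    IsProj (fun i => pj (u i)) where
  idem i x := by
    have h1 : ⟪u i, u i⟫_ℂ = 1 := by
      rw [inner_self_eq_norm_sq_to_K, hu i]
      simp
    change x - ⟪u i, x⟫_ℂ • u i - ⟪u i, x - ⟪u i, x⟫_ℂ • u i⟫_ℂ • u i = x - ⟪u i, x⟫_ℂ • u i
    rw [inner_sub_right, inner_smul_right, h1, mul_one, sub_self, zero_smul, sub_zero]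
  symm i x y := by
    change ⟪x - ⟪u i, x⟫_ℂ • u i, y⟫_ℂ = ⟪x, y - ⟪u i, y⟫_ℂ • u i⟫_ℂ
    rw [inner_sub_left, inner_sub_right, inner_smul_left, inner_smul_right, inner_conj_symm]
    ring

/-- the unit vector of a linear form -/
noncomputable def un (a : Fin n → ℂ) : EuclideanSpace ℂ (Fin n) :=
  ((1 / nrm a : ℝ) : ℂ) • eu (cj a)

theorem cj_cj' (a : Fin n → ℂ) : cj (cj a) = a := by
  funext j
  exact Complex.conj_conj _

theorem nrm_cj (a : Fin n → ℂ) : nrm (cj a) = nrm a := by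
  unfold nrm Pool.Agent.H60.FB.sq
  congr 1
  refine Finset.sum_congr rfl fun j _ => ?_
  congr 1
  exact Complex.norm_conj _

theorem nrm_pos {a : Fin n → ℂ} (ha : a ≠ 0) : 0 < nrm a := by
  rw [← eu_norm]
  refine norm_pos_iff.2 fun h => ha ?_
  have := congrArg (WithLp.equiv 2 (Fin n → ℂ)) h
  exact this

theorem un_norm {a : Fin n → ℂ} (ha : a ≠ 0) : ‖un a‖ = 1 := by
  have h := nrm_pos ha
  unfold un
  rw [norm_smul, Complex.norm_real, Real.norm_of_nonneg (by positivity), eu_norm, nrm_cj]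
  field_simp

theorem inner_un (a z : Fin n → ℂ) : ⟪un a, eu z⟫_ℂ = dt a z / nrm a := by
  unfold un
  rw [inner_smul_left, inner_eu, cj_cj', Complex.conj_ofReal]
  push_cast
  ring

theorem arr_weights {m : ℕ} (a : Fin m → Fin n → ℂ) :
    ∃ (A : ℝ) (Φ : ℝ → ℝ → (Fin n → ℂ) → ℝ), 0 ≤ A ∧
      (∀ B, 0 ≤ B → ∀ z, ∀ᶠ K in atTop, Φ B K z ≤ A * B * (‖z‖ + 1)) ∧
      (∀ B, 0 ≤ B → ∀ K, 1 ≤ K → ∀ z, Pool.Agent.H60.FB.sq z / 2 - 2 * K ^ 2 ≤ Φ B K z) ∧
      (∀ B₀, 0 ≤ B₀ → ∀ B, B₀ ≤ B → B₀ ^ 2 ≤ B → ∀ K z, B₀ * ‖z‖ ≤ Φ B K z) ∧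
      ∀ B, 0 ≤ B → ∀ K b, ∃ ρ : Fin n → ℂ,
        (∀ w, Φ B K (b + w) ≤ Φ B K b + (dt (cj ρ) w).re + Pool.Agent.H60.FB.sq w + 1) ∧
        ∀ i, a i ≠ 0 → min ((B - 2) * nrm (a i)) (2 * (‖dt (a i) b‖ - nrm (a i))) ≤
          ‖dt (a i) ρ‖ := by
  classical
  let ι : Type := {i : Fin m // a i ≠ 0}
  let u : ι → EuclideanSpace ℂ (Fin n) := fun i => un (a i.1)
  have hu : ∀ i, ‖u i‖ = 1 := fun i => un_norm i.2
  let p : ι → EuclideanSpace ℂ (Fin n) →ₗ[ℂ] EuclideanSpace ℂ (Fin n) := fun i => pj (u i)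
  have hp : IsProj p := isProj_pj u hu
  obtain ⟨C, hC0, hC⟩ := path_bounded hp
  have h : Bdd p C := { toIsProj := hp, nn := hC0, bd := hC }
  refine ⟨(C + 1) * √n + 1, fun B K z => B + mm p B K (eu z), by positivity, ?_, ?_, ?_, ?_⟩
  · intro B hB z
    filter_upwards [eventually_ge_atTop ((C + 1) * ‖eu z‖)] with K hK
    have h1 := h.mm_up hB hK
    have h2 : B * ((C + 1) * ‖eu z‖) ≤ B * ((C + 1) * (√n * ‖z‖)) :=
      mul_le_mul_of_nonneg_left (mul_le_mul_of_nonneg_left (eu_le_norm z) (by linarith)) hB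
    have h3 : 0 ≤ B * ((C + 1) * √n) := by positivity
    have h4 : 0 ≤ B * ‖z‖ := by positivity
    nlinarith
  · intro B hB K hK z
    have h1 := h.mm_low hB (by linarith : (0 : ℝ) ≤ K) (eu z)
    rw [eu_norm_sq] at h1
    linarith
  · intro B₀ hB₀ B h1 h2 K z
    have h3 := h.mm_lin (K := K) (hB₀.trans h1) hB₀ h1 h2 (eu z)
    have h4 := mul_le_mul_of_nonneg_left (norm_le_eu z) hB₀
    linarith
  · intro B hB K b
    obtain ⟨y', h1, h2⟩ := h.mm_key hB K (eu b)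
    obtain ⟨y, rfl⟩ : ∃ y, eu y = y' := ⟨WithLp.ofLp y', rfl⟩
    set ρ : Fin n → ℂ := (2 : ℂ) • (b - y) with hρ
    have hρe : eu ρ = (2 : ℂ) • (eu b - eu y) := rfl
    refine ⟨ρ, fun w => ?_, fun i hi => ?_⟩
    · have h3 := h1 (eu w)
      rw [← eu_add, eu_norm_sq] at h3
      have h4 : (dt (cj ρ) w).re = 2 * (⟪eu b - eu y, eu w⟫_ℂ).re := by
        rw [← inner_eu, hρe, inner_smul_left]
        have : (starRingEnd ℂ) 2 = ((2 : ℝ) : ℂ) := by
          rw [Complex.ofReal_ofNat, map_ofNat]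
        rw [this, Complex.re_ofReal_mul]
      rw [h4]
      linarith
    · have hN := nrm_pos hi
      have h3 := h2 ⟨i, hi⟩
      have hd : eu y - p ⟨i, hi⟩ (eu y) = ⟪un (a i), eu y⟫_ℂ • un (a i) := by
        change eu y - (eu y - ⟪un (a i), eu y⟫_ℂ • un (a i)) = _
        abel
      have hdn : ‖eu y - p ⟨i, hi⟩ (eu y)‖ = ‖dt (a i) y‖ / nrm (a i) := by
        rw [hd, norm_smul, un_norm hi, mul_one, inner_un, norm_div, Complex.norm_real,
          Real.norm_of_nonneg hN.le]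
      rcases le_or_gt 1 (‖dt (a i) y‖ / nrm (a i)) with hc | hc
      · refine (min_le_left _ _).trans ?_
        rw [hdn] at h3
        have h4 := h3 hc
        have h5 : 2 * (⟪eu b - eu y, eu y - p ⟨i, hi⟩ (eu y)⟫_ℂ).re ≤
            (‖dt (a i) ρ‖ / nrm (a i)) * (‖dt (a i) y‖ / nrm (a i)) := by
          have h6 : 2 * (⟪eu b - eu y, eu y - p ⟨i, hi⟩ (eu y)⟫_ℂ).re =
              (⟪eu ρ, eu y - p ⟨i, hi⟩ (eu y)⟫_ℂ).re := by
            rw [hρe, inner_smul_left]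
            have : (starRingEnd ℂ) 2 = ((2 : ℝ) : ℂ) := by
              rw [Complex.ofReal_ofNat, map_ofNat]
            rw [this, Complex.re_ofReal_mul]
          rw [h6, hd, inner_smul_right]
          refine (Complex.re_le_norm _).trans ?_
          rw [norm_mul]
          have h7 : ‖⟪eu ρ, un (a i)⟫_ℂ‖ = ‖dt (a i) ρ‖ / nrm (a i) := by
            rw [← inner_conj_symm, Complex.norm_conj, inner_un, norm_div, Complex.norm_real,
              Real.norm_of_nonneg hN.le]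
          have h8 : ‖⟪un (a i), eu y⟫_ℂ‖ = ‖dt (a i) y‖ / nrm (a i) := by
            rw [inner_un, norm_div, Complex.norm_real, Real.norm_of_nonneg hN.le]
          rw [h7, h8, mul_comm]
        have h9 := h4.trans h5
        have h10 : 0 < ‖dt (a i) y‖ / nrm (a i) := by linarith
        have h11 := le_of_mul_le_mul_right h9 h10
        rwa [le_div_iff₀ hN] at h11
      · refine (min_le_right _ _).trans ?_
        rw [div_lt_one hN] at hc
        have h4 : dt (a i) ρ = 2 * (dt (a i) b - dt (a i) y) := by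
          rw [hρ]
          unfold dt
          rw [← Finset.sum_sub_distrib, Finset.mul_sum]
          refine Finset.sum_congr rfl fun j _ => ?_
          simp only [Pi.smul_apply, Pi.sub_apply, smul_eq_mul]
          ring
        rw [h4, norm_mul, Complex.norm_ofNat]
        have h5 := norm_sub_norm_le (dt (a i) b) (dt (a i) y)
        linarith

end Pool.Agent.H5.LF
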