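import Pool.Agent.H5.LF.Words

/-!
The norm decreased by all projections, and its inf-convolution (MP_6e521b_an, products of linear
polynomials).
-/

set_option autoImplicit false

namespace Pool.Agent.H5.LF

open scoped InnerProductSpace

variable {E ι : Type*} [NormedAddCommGroup E] [InnerProductSpace ℂ E]

/-- the supremum of the lengths of all paths, with the norm of the end point added -/
noncomputable def gG (p : ι → E →ₗ[ℂ] E) (x : E) : ℝ :=
  ⨆ w : List ι, (len p w x + ‖fin p w x‖)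

/-- the paths of all words are bounded -/
structure Bdd (p : ι → E →ₗ[ℂ] E) (C : ℝ) : Prop extends IsProj p where
  nn : 0 ≤ C
  bd : ∀ (w : List ι) (x : E), len p w x ≤ C * ‖x‖

variable {p : ι → E →ₗ[ℂ] E} {C : ℝ}

theorem Bdd.bddAbove (h : Bdd p C) (x : E) :
    BddAbove (Set.range (fun w : List ι => len p w x + ‖fin p w x‖)) := by
  refine ⟨(C + 1) * ‖x‖, ?_⟩
  rintro _ ⟨w, rfl⟩
  have h1 := h.bd w x
  have h2 := h.toIsProj.fin_le w x
  simp only
  linarith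

theorem Bdd.gG_le (h : Bdd p C) (x : E) : gG p x ≤ (C + 1) * ‖x‖ := by
  refine ciSup_le (fun w => ?_)
  have h1 := h.bd w x
  have h2 := h.toIsProj.fin_le w x
  linarith

theorem Bdd.le_gG (h : Bdd p C) (x : E) : ‖x‖ ≤ gG p x := by
  have h1 := le_ciSup (h.bddAbove x) []
  simp only [len, fin, zero_add] at h1
  exact h1

theorem Bdd.gG_proj (h : Bdd p C) (j : ι) (x : E) :
    gG p (p j x) + ‖x - p j x‖ ≤ gG p x := by
  have h1 : gG p (p j x) ≤ gG p x - ‖x - p j x‖ := by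
    refine ciSup_le (fun w => ?_)
    have h2 := le_ciSup (h.bddAbove x) (j :: w)
    simp only [len, fin] at h2
    unfold gG
    linarith
  linarith

theorem Bdd.gG_conv (h : Bdd p C) (t : ℝ) (h0 : 0 ≤ t) (h1 : t ≤ 1) (x y : E) :
    gG p (((1 - t : ℝ) : ℂ) • x + (t : ℂ) • y) ≤ (1 - t) * gG p x + t * gG p y := by
  refine ciSup_le (fun w => ?_)
  have h2 := len_add_le (p := p) w (((1 - t : ℝ) : ℂ) • x) ((t : ℂ) • y)
  rw [len_real_smul w (1 - t) (by linarith), len_real_smul w t h0] at h2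
  have h3 : ‖fin p w (((1 - t : ℝ) : ℂ) • x + (t : ℂ) • y)‖ ≤
      (1 - t) * ‖fin p w x‖ + t * ‖fin p w y‖ := by
    rw [fin_add, fin_real_smul, fin_real_smul]
    refine (norm_add_le _ _).trans (le_of_eq ?_)
    rw [norm_smul, norm_smul, Complex.norm_real, Complex.norm_real, Real.norm_of_nonneg h0,
      Real.norm_of_nonneg (by linarith : (0 : ℝ) ≤ 1 - t)]
  have h4 := mul_le_mul_of_nonneg_left (le_ciSup (h.bddAbove x) w) (by linarith : 0 ≤ 1 - t)
  have h5 := mul_le_mul_of_nonneg_left (le_ciSup (h.bddAbove y) w) h0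
  unfold gG
  linarith

/-- the profile -/
noncomputable def ff (B K r : ℝ) : ℝ := B * r + 2 * max (r - K) 0 ^ 2

theorem ff_slope {B K r s : ℝ} (h : s ≤ r) : ff B K s + B * (r - s) ≤ ff B K r := by
  unfold ff
  have h1 : max (s - K) 0 ≤ max (r - K) 0 := max_le_max (by linarith) le_rfl
  have h2 : (0 : ℝ) ≤ max (s - K) 0 := le_max_right _ _
  nlinarith

theorem ff_conv {B K t : ℝ} (h0 : 0 ≤ t) (h1 : t ≤ 1) (r s : ℝ) :
    ff B K ((1 - t) * r + t * s) ≤ (1 - t) * ff B K r + t * ff B K s := by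
  unfold ff
  set a := max (r - K) 0 with ha
  set b := max (s - K) 0 with hb
  have hr : r - K ≤ a := le_max_left _ _
  have hs : s - K ≤ b := le_max_left _ _
  have ha0 : 0 ≤ a := le_max_right _ _
  have hb0 : 0 ≤ b := le_max_right _ _
  have h2 : max ((1 - t) * r + t * s - K) 0 ≤ (1 - t) * a + t * b := by
    refine max_le ?_ (by nlinarith)
    nlinarith
  have h3 : (0 : ℝ) ≤ max ((1 - t) * r + t * s - K) 0 := le_max_right _ _
  have h4 : max ((1 - t) * r + t * s - K) 0 ^ 2 ≤ ((1 - t) * a + t * b) ^ 2 := by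
    nlinarith
  have h5 : ((1 - t) * a + t * b) ^ 2 ≤ (1 - t) * a ^ 2 + t * b ^ 2 := by
    nlinarith [mul_nonneg (mul_nonneg h0 (by linarith : 0 ≤ 1 - t)) (sq_nonneg (a - b))]
  nlinarith

theorem ff_nonneg {B K r : ℝ} (hB : 0 ≤ B) (hr : 0 ≤ r) : 0 ≤ ff B K r := by
  unfold ff
  positivity

theorem ff_ge {B K r : ℝ} (hB : 0 ≤ B) (hr : 0 ≤ r) (hK : 0 ≤ K) :
    r ^ 2 - 2 * K ^ 2 ≤ ff B K r := by
  unfold ff
  have h1 : 0 ≤ B * r := mul_nonneg hB hr
  rcases le_total r K with h | h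
  · rw [max_eq_right (by linarith)]
    nlinarith
  · rw [max_eq_left (by linarith)]
    nlinarith [sq_nonneg (r - 2 * K)]

theorem ff_eq {B K r : ℝ} (h : r ≤ K) : ff B K r = B * r := by
  unfold ff
  rw [max_eq_right (by linarith)]
  ring

/-- the inf-convolution -/
noncomputable def mm (p : ι → E →ₗ[ℂ] E) (B K : ℝ) (z : E) : ℝ :=
  ⨅ y : E, (ff B K (gG p y) + ‖z - y‖ ^ 2)

theorem Bdd.bddBelow (h : Bdd p C) {B : ℝ} (hB : 0 ≤ B) (K : ℝ) (z : E) :
    BddBelow (Set.range (fun y : E => ff B K (gG p y) + ‖z - y‖ ^ 2)) := by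
  refine ⟨0, ?_⟩
  rintro _ ⟨y, rfl⟩
  exact add_nonneg (ff_nonneg hB ((norm_nonneg _).trans (h.le_gG y))) (sq_nonneg _)

theorem Bdd.mm_up (h : Bdd p C) {B : ℝ} (hB : 0 ≤ B) {K : ℝ} {z : E}
    (hK : (C + 1) * ‖z‖ ≤ K) : mm p B K z ≤ B * ((C + 1) * ‖z‖) := by
  have h1 := ciInf_le (h.bddBelow hB K z) z
  simp only [sub_self, norm_zero] at h1
  rw [ff_eq ((h.gG_le z).trans hK)] at h1
  have h2 := mul_le_mul_of_nonneg_left (h.gG_le z) hB
  unfold mm
  linarith

theorem Bdd.mm_low (h : Bdd p C) {B K : ℝ} (hB : 0 ≤ B) (hK : 0 ≤ K) (z : E) :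
    ‖z‖ ^ 2 / 2 - 2 * K ^ 2 ≤ mm p B K z := by
  refine le_ciInf (fun y => ?_)
  have h1 := h.le_gG y
  have h2 := ff_ge hB ((norm_nonneg _).trans h1) hK (K := K) (r := gG p y)
  have h3 : ‖z‖ ≤ ‖z - y‖ + ‖y‖ := by
    have := norm_add_le (z - y) y
    rwa [sub_add_cancel] at this
  have h4 : ‖z‖ ^ 2 ≤ (‖z - y‖ + ‖y‖) ^ 2 := by
    have := norm_nonneg z
    nlinarith
  have h5 : ‖y‖ ^ 2 ≤ gG p y ^ 2 := by
    have := norm_nonneg y
    nlinarith
  nlinarith [sq_nonneg (‖z - y‖ - ‖y‖)]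

theorem Bdd.mm_lin (h : Bdd p C) {B K B₀ : ℝ} (hB : 0 ≤ B) (hB0 : 0 ≤ B₀) (h1 : B₀ ≤ B)
    (h2 : B₀ ^ 2 ≤ B) (z : E) : B₀ * ‖z‖ ≤ B + mm p B K z := by
  have h3 : B₀ * ‖z‖ - B ≤ mm p B K z := by
    refine le_ciInf (fun y => ?_)
    have h4 : ‖z‖ ≤ ‖z - y‖ + ‖y‖ := by
      have := norm_add_le (z - y) y
      rwa [sub_add_cancel] at this
    have h5 := h.le_gG y
    have h6 : B * gG p y ≤ ff B K (gG p y) := by
      unfold ff
      have := sq_nonneg (max (gG p y - K) 0)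
      linarith
    have h7 := mul_le_mul_of_nonneg_left h4 hB0
    have h8 : B₀ * ‖y‖ ≤ B * gG p y :=
      mul_le_mul h1 h5 (norm_nonneg _) hB
    nlinarith [sq_nonneg (‖z - y‖ - B₀ / 2), sq_nonneg B₀]
  linarith

/-- The gradients of the inf-convolution are far from the fixed spaces of the projections, away
from these spaces. -/
theorem Bdd.mm_key (h : Bdd p C) {B : ℝ} (hB : 0 ≤ B) (K : ℝ) (b : E) :
    ∃ y : E, (∀ w, mm p B K (b + w) ≤
        mm p B K b + 2 * (⟪b - y, w⟫_ℂ).re + ‖w‖ ^ 2 + 1) ∧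
      ∀ j, 1 ≤ ‖y - p j y‖ → (B - 2) * ‖y - p j y‖ ≤ 2 * (⟪b - y, y - p j y⟫_ℂ).re := by
  obtain ⟨y, hy⟩ := exists_lt_of_ciInf_lt
    (show mm p B K b < mm p B K b + 1 by linarith)
  have hsq : ∀ w : E, ‖b - y + w‖ ^ 2 = ‖b - y‖ ^ 2 + 2 * (⟪b - y, w⟫_ℂ).re + ‖w‖ ^ 2 := by
    intro w
    have := @norm_add_sq ℂ E _ _ _ (b - y) w
    rw [this]
    rfl
  refine ⟨y, fun w => ?_, fun j hj => ?_⟩
  · have h1 := ciInf_le (h.bddBelow hB K (b + w)) y
    have h2 : b + w - y = b - y + w := by abel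
    simp only [h2, hsq] at h1
    change mm p B K (b + w) ≤ _ at h1
    linarith
  · set d := y - p j y with hd
    set t : ℝ := 1 / ‖d‖ with ht
    have hd0 : 0 < ‖d‖ := by linarith
    have ht0 : 0 ≤ t := by positivity
    have ht1 : t ≤ 1 := by
      rw [ht, div_le_one hd0]
      exact hj
    have htd : t * ‖d‖ = 1 := by
      rw [ht]
      field_simp
    set y' : E := ((1 - t : ℝ) : ℂ) • y + (t : ℂ) • p j y with hy'
    have h1 := ciInf_le (h.bddBelow hB K b) y'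
    change mm p B K b ≤ _ at h1
    have h2 : b - y' = b - y + (t : ℂ) • d := by
      rw [hy', hd]
      push_cast
      module
    simp only [h2, hsq] at h1
    have h3 : (⟪b - y, (t : ℂ) • d⟫_ℂ).re = t * (⟪b - y, d⟫_ℂ).re := by
      rw [inner_smul_right, Complex.re_ofReal_mul]
    have h4 : ‖(t : ℂ) • d‖ = 1 := by
      rw [norm_smul, Complex.norm_real, Real.norm_of_nonneg ht0, htd]
    rw [h3, h4] at h1
    have h5 : ff B K (gG p y') ≤ ff B K (gG p y) - t * (B * ‖d‖) := by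
      have g1 := h.gG_conv t ht0 ht1 y (p j y)
      have g2 : ff B K (gG p y') ≤ ff B K ((1 - t) * gG p y + t * gG p (p j y)) := by
        have := ff_slope (B := B) (K := K) g1
        have := mul_nonneg hB (sub_nonneg.2 g1)
        linarith
      have g3 := ff_conv (B := B) (K := K) ht0 ht1 (gG p y) (gG p (p j y))
      have g4 := h.gG_proj j y
      have g5 := ff_slope (B := B) (K := K) (show gG p (p j y) ≤ gG p y by
        linarith [norm_nonneg (y - p j y)])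
      have g6 : B * ‖d‖ ≤ B * (gG p y - gG p (p j y)) :=
        mul_le_mul_of_nonneg_left (by linarith) hB
      have g7 : t * ff B K (gG p (p j y)) ≤ t * (ff B K (gG p y) - B * ‖d‖) :=
        mul_le_mul_of_nonneg_left (by linarith) ht0
      linarith
    have h6 : t * (B * ‖d‖) = B := by
      rw [mul_left_comm, htd, mul_one]
    have h7 : B - 2 ≤ 2 * (t * (⟪b - y, d⟫_ℂ).re) := by
      have : ff B K (gG p y) + ‖b - y‖ ^ 2 < mm p B K b + 1 := hy
      linarith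
    have h8 := mul_le_mul_of_nonneg_right h7 hd0.le
    have h9 : 2 * (t * (⟪b - y, d⟫_ℂ).re) * ‖d‖ = 2 * (⟪b - y, d⟫_ℂ).re := by
      calc 2 * (t * (⟪b - y, d⟫_ℂ).re) * ‖d‖ = 2 * (⟪b - y, d⟫_ℂ).re * (t * ‖d‖) := by ring
        _ = _ := by rw [htd, mul_one]
    rw [h9] at h8
    exact h8

end Pool.Agent.H5.LF
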