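import Pool.Agent.H5.LF.Arr
import Pool.Agent.H77.N2.InjP

/-!
Localisations of hyperplane arrangements (MP_6e521b_an, products of linear polynomials).
-/

set_option autoImplicit false

open MvPolynomial Filter Topology Pool.Agent.H77.FB Pool.Agent.H60.FB Pool.Agent.H77.N2

namespace Pool.Agent.H5.LF

variable {n : ℕ}

/-- a polynomial of degree at most one -/
noncomputable def fac (a : Fin n → ℂ) (c : ℂ) : MvPolynomial (Fin n) ℂ :=
  (∑ k, C (a k) * X k) + C c

theorem eval_fac (a : Fin n → ℂ) (c : ℂ) (z : Fin n → ℂ) : eval z (fac a c) = dt a z + c := by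
  unfold fac dt
  simp

/-- the linear form -/
noncomputable def dl (a : Fin n → ℂ) : (Fin n → ℂ) →ₗ[ℂ] ℂ where
  toFun := dt a
  map_add' z w := by
    unfold dt
    rw [← Finset.sum_add_distrib]
    exact Finset.sum_congr rfl fun j _ => mul_add _ _ _
  map_smul' c z := by
    unfold dt
    rw [RingHom.id_apply, smul_eq_mul, Finset.mul_sum]
    refine Finset.sum_congr rfl fun j _ => ?_
    simp only [Pi.smul_apply, smul_eq_mul]
    ring

theorem dl_apply (a z : Fin n → ℂ) : dl a z = dt a z := rfl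

theorem dt_add' (a z w : Fin n → ℂ) : dt a (z + w) = dt a z + dt a w := map_add (dl a) z w

theorem dt_sub' (a z w : Fin n → ℂ) : dt a (z - w) = dt a z - dt a w := map_sub (dl a) z w

theorem dt_zero_left (z : Fin n → ℂ) : dt 0 z = 0 := by
  unfold dt
  simp

theorem fac_ne_zero {a : Fin n → ℂ} {c : ℂ} (h : a ≠ 0 ∨ c ≠ 0) : fac a c ≠ 0 := by
  intro h0
  have h1 : ∀ z, dt a z + c = 0 := fun z => by rw [← eval_fac, h0, map_zero]
  have h2 : c = 0 := by
    have := h1 0
    rwa [← dl_apply, map_zero, zero_add] at this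
  rcases h with h | h
  · apply h
    funext j
    have h3 := h1 (Pi.single j 1)
    rw [h2, add_zero] at h3
    unfold dt at h3
    rw [Finset.sum_eq_single j] at h3
    · simpa using h3
    · intro i _ hi
      rw [Pi.single_eq_of_ne hi, mul_zero]
    · intro hj
      exact absurd (Finset.mem_univ j) hj
  · exact h h2

theorem ultra_lim1 (𝒰 : Ultrafilter ℕ) (x : ℕ → ℂ) (h : ∃ C : ℝ, ∀ᶠ k in (𝒰 : Filter ℕ), ‖x k‖ ≤ C) :
    ∃ l, Tendsto x 𝒰 (𝓝 l) := by
  obtain ⟨C, hC⟩ := h
  obtain ⟨l, -, hl⟩ := (isCompact_closedBall (0 : ℂ) C).ultrafilter_le_nhds (𝒰.map x) (by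
    rw [Ultrafilter.coe_map, le_principal_iff, mem_map]
    filter_upwards [hC] with k hk
    simpa using hk)
  exact ⟨l, hl⟩

theorem ultra_unb (𝒰 : Ultrafilter ℕ) (x : ℕ → ℂ)
    (h : ¬ ∃ C : ℝ, ∀ᶠ k in (𝒰 : Filter ℕ), ‖x k‖ ≤ C) :
    Tendsto (fun k => ‖x k‖) 𝒰 atTop := by
  rw [tendsto_atTop]
  intro C
  have h1 : ¬ ∀ᶠ k in (𝒰 : Filter ℕ), ‖x k‖ ≤ C := fun h2 => h ⟨C, h2⟩
  rw [← Ultrafilter.eventually_not] at h1
  filter_upwards [h1] with k hk
  exact (not_le.1 hk).le

theorem lim_fac {m : ℕ} (a : Fin m → Fin n → ℂ) (c : Fin m → ℂ) (𝒰 : Ultrafilter ℕ)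
    (x : ℕ → Fin n → ℂ) (I : Finset (Fin m)) (lam : Fin m → ℂ)
    (hI : ∀ i ∈ I, Tendsto (fun k => dt (a i) (x k)) 𝒰 (𝓝 (lam i)))
    (hO : ∀ i, i ∉ I → Tendsto (fun k => ‖dt (a i) (x k)‖) 𝒰 atTop) :
    (∀ᶠ k in (𝒰 : Filter ℕ), 1 ≤ ‖∏ i ∈ Iᶜ, (dt (a i) (x k) + c i)‖) ∧
      ∀ w, Tendsto (fun k => eval (x k + w) (∏ i, fac (a i) (c i)) /
        ∏ i ∈ Iᶜ, (dt (a i) (x k) + c i)) 𝒰 (𝓝 (eval w (∏ i ∈ I, fac (a i) (lam i + c i)))) := by
  have hX : ∀ i, i ∉ I → Tendsto (fun k => ‖dt (a i) (x k) + c i‖) 𝒰 atTop := by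
    intro i hi
    refine tendsto_atTop_mono (fun k => ?_) (tendsto_atTop_add_const_right _ (-‖c i‖) (hO i hi))
    have := norm_sub_le (dt (a i) (x k) + c i) (c i)
    rw [add_sub_cancel_right] at this
    linarith
  constructor
  · have h1 : ∀ᶠ k in (𝒰 : Filter ℕ), ∀ i ∈ Iᶜ, 1 ≤ ‖dt (a i) (x k) + c i‖ := by
      rw [Filter.eventually_all_finset]
      intro i hi
      exact (hX i (Finset.mem_compl.1 hi)).eventually_ge_atTop 1
    filter_upwards [h1] with k hk
    rw [norm_prod]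
    calc (1 : ℝ) = ∏ i ∈ Iᶜ, (1 : ℝ) := by simp
      _ ≤ _ := Finset.prod_le_prod (fun _ _ => zero_le_one) hk
  · intro w
    have h1 : ∀ k, eval (x k + w) (∏ i, fac (a i) (c i)) / ∏ i ∈ Iᶜ, (dt (a i) (x k) + c i) =
        (∏ i ∈ I, (dt (a i) (x k) + dt (a i) w + c i)) *
          ∏ i ∈ Iᶜ, (1 + dt (a i) w / (dt (a i) (x k) + c i) *
            (if dt (a i) (x k) + c i = 0 then 0 else 1) -
            (if dt (a i) (x k) + c i = 0 then 1 else 0)) := by
      intro k
      rw [map_prod, ← Finset.prod_mul_prod_compl I, mul_div_assoc, ← Finset.prod_div_distrib]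
      congr 1
      · exact Finset.prod_congr rfl fun i _ => by rw [eval_fac, dt_add']
      · refine Finset.prod_congr rfl fun i _ => ?_
        rw [eval_fac, dt_add']
        by_cases h0 : dt (a i) (x k) + c i = 0
        · rw [h0, if_pos rfl, if_pos rfl]
          simp
        · rw [if_neg h0, if_neg h0]
          field_simp
          ring
    simp only [h1]
    have h2 : eval w (∏ i ∈ I, fac (a i) (lam i + c i)) =
        (∏ i ∈ I, (lam i + dt (a i) w + c i)) * ∏ _i ∈ Iᶜ, (1 : ℂ) := by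
      rw [map_prod, Finset.prod_const_one, mul_one]
      refine Finset.prod_congr rfl fun i _ => ?_
      rw [eval_fac]
      ring
    rw [h2]
    refine Tendsto.mul (tendsto_finsetProd _ fun i hi => ?_)
      (tendsto_finsetProd _ fun i hi => ?_)
    · exact ((hI i hi).add_const _).add_const _
    · have hi' := hX i (Finset.mem_compl.1 hi)
      have h3 : Tendsto (fun k => 1 + dt (a i) w / (dt (a i) (x k) + c i)) 𝒰 (𝓝 (1 + 0)) := by
        refine tendsto_const_nhds.add ?_
        rw [tendsto_zero_iff_norm_tendsto_zero]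
        simp only [norm_div]
        exact hi'.const_div_atTop _
      rw [add_zero] at h3
      refine h3.congr' ?_
      filter_upwards [hi'.eventually_gt_atTop 0] with k hk
      have h0 : dt (a i) (x k) + c i ≠ 0 := norm_pos_iff.1 hk
      rw [if_neg h0, if_neg h0, mul_one, sub_zero]

/-- `R` is small against the product of the `1 + |L_i|` at infinity -/
def SmallR {m : ℕ} (a : Fin m → Fin n → ℂ) (c : Fin m → ℂ) (R : MvPolynomial (Fin n) ℂ) :
    Prop :=
  ∀ ε : ℝ, 0 < ε → ∃ M : ℝ, ∀ z : Fin n → ℂ, M ≤ ‖z‖ →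
    ‖eval z R‖ ≤ ε * ∏ i, (1 + ‖dt (a i) z + c i‖)

theorem lim_R {m : ℕ} (a : Fin m → Fin n → ℂ) (c : Fin m → ℂ) (𝒰 : Ultrafilter ℕ)
    (x : ℕ → Fin n → ℂ) (I : Finset (Fin m)) (lam : Fin m → ℂ)
    (hI : ∀ i ∈ I, Tendsto (fun k => dt (a i) (x k)) 𝒰 (𝓝 (lam i)))
    (hO : ∀ i, i ∉ I → Tendsto (fun k => ‖dt (a i) (x k)‖) 𝒰 atTop)
    (R : MvPolynomial (Fin n) ℂ) (hR : SmallR a c R)
    (hx : R = 0 ∨ Tendsto (fun k => ‖x k‖) 𝒰 atTop) (w : Fin n → ℂ) :
    Tendsto (fun k => eval (x k + w) R / ∏ i ∈ Iᶜ, (dt (a i) (x k) + c i)) 𝒰 (𝓝 0) := by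
  rcases hx with hx | hx
  · simp only [hx, map_zero, zero_div]
    exact tendsto_const_nhds
  have hX : ∀ i, i ∉ I → Tendsto (fun k => ‖dt (a i) (x k) + c i‖) 𝒰 atTop := by
    intro i hi
    refine tendsto_atTop_mono (fun k => ?_) (tendsto_atTop_add_const_right _ (-‖c i‖) (hO i hi))
    have := norm_sub_le (dt (a i) (x k) + c i) (c i)
    rw [add_sub_cancel_right] at this
    linarith
  set L : ℝ := ∏ i ∈ I, (1 + ‖lam i + dt (a i) w + c i‖) with hL
  -- the quotient of the two products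
  have hq : Tendsto (fun k => (∏ i ∈ I, (1 + ‖dt (a i) (x k) + dt (a i) w + c i‖)) *
      ∏ i ∈ Iᶜ, ((1 + ‖dt (a i) w‖) / ‖dt (a i) (x k) + c i‖ + 1)) 𝒰
      (𝓝 (L * ∏ _i ∈ Iᶜ, (1 : ℝ))) := by
    refine Tendsto.mul (tendsto_finsetProd _ fun i hi => ?_)
      (tendsto_finsetProd _ fun i hi => ?_)
    · exact tendsto_const_nhds.add (((hI i hi).add_const _).add_const _).norm
    · have h1 := (hX i (Finset.mem_compl.1 hi)).const_div_atTop (1 + ‖dt (a i) w‖)
      have h2 := h1.add_const 1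
      rwa [zero_add] at h2
  rw [Finset.prod_const_one, mul_one] at hq
  have hxw : Tendsto (fun k => ‖x k + w‖) 𝒰 atTop := by
    refine tendsto_atTop_mono (fun k => ?_) (tendsto_atTop_add_const_right _ (-‖w‖) hx)
    have := norm_sub_le (x k + w) w
    rw [add_sub_cancel_right] at this
    linarith
  rw [Metric.tendsto_nhds]
  intro ε hε
  have hL0 : 0 ≤ L := Finset.prod_nonneg fun i _ => by positivity
  obtain ⟨M, hM⟩ := hR (ε / (L + 2)) (by positivity)
  have h1 : ∀ᶠ k in (𝒰 : Filter ℕ), ∀ i ∈ Iᶜ, 0 < ‖dt (a i) (x k) + c i‖ := by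
    rw [Filter.eventually_all_finset]
    intro i hi
    exact (hX i (Finset.mem_compl.1 hi)).eventually_gt_atTop 0
  filter_upwards [h1, hxw.eventually_ge_atTop M, hq.eventually_lt_const (lt_add_one L)]
    with k hk1 hk2 hk3
  rw [dist_zero_right, norm_div, norm_prod]
  have hD : 0 < ∏ i ∈ Iᶜ, ‖dt (a i) (x k) + c i‖ := Finset.prod_pos hk1
  have h2 := hM _ hk2
  have h3 : ∏ i, (1 + ‖dt (a i) (x k + w) + c i‖) ≤
      (L + 1) * ∏ i ∈ Iᶜ, ‖dt (a i) (x k) + c i‖ := by
    rw [← Finset.prod_mul_prod_compl I]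
    have h4 : ∏ i ∈ I, (1 + ‖dt (a i) (x k + w) + c i‖) =
        ∏ i ∈ I, (1 + ‖dt (a i) (x k) + dt (a i) w + c i‖) :=
      Finset.prod_congr rfl fun i _ => by rw [dt_add']
    have h5 : ∏ i ∈ Iᶜ, (1 + ‖dt (a i) (x k + w) + c i‖) ≤
        (∏ i ∈ Iᶜ, ((1 + ‖dt (a i) w‖) / ‖dt (a i) (x k) + c i‖ + 1)) *
          ∏ i ∈ Iᶜ, ‖dt (a i) (x k) + c i‖ := by
      rw [← Finset.prod_mul_distrib]
      refine Finset.prod_le_prod (fun i _ => by positivity) fun i hi => ?_
      have h6 := hk1 i hi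
      have h7 : ((1 + ‖dt (a i) w‖) / ‖dt (a i) (x k) + c i‖ + 1) * ‖dt (a i) (x k) + c i‖ =
          1 + ‖dt (a i) w‖ + ‖dt (a i) (x k) + c i‖ := by
        field_simp
      rw [h7, dt_add']
      have h8 : dt (a i) (x k) + dt (a i) w + c i = dt (a i) w + (dt (a i) (x k) + c i) := by
        ring
      rw [h8]
      have := norm_add_le (dt (a i) w) (dt (a i) (x k) + c i)
      linarith
    rw [h4]
    calc _ ≤ (∏ i ∈ I, (1 + ‖dt (a i) (x k) + dt (a i) w + c i‖)) *
          ((∏ i ∈ Iᶜ, ((1 + ‖dt (a i) w‖) / ‖dt (a i) (x k) + c i‖ + 1)) *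
            ∏ i ∈ Iᶜ, ‖dt (a i) (x k) + c i‖) :=
          mul_le_mul_of_nonneg_left h5 (Finset.prod_nonneg fun i _ => by positivity)
      _ = ((∏ i ∈ I, (1 + ‖dt (a i) (x k) + dt (a i) w + c i‖)) *
          ∏ i ∈ Iᶜ, ((1 + ‖dt (a i) w‖) / ‖dt (a i) (x k) + c i‖ + 1)) *
            ∏ i ∈ Iᶜ, ‖dt (a i) (x k) + c i‖ := by ring
      _ ≤ _ := mul_le_mul_of_nonneg_right hk3.le hD.le
  rw [div_lt_iff₀ hD]
  have h9 : ε / (L + 2) * ∏ i, (1 + ‖dt (a i) (x k + w) + c i‖) ≤
      ε / (L + 2) * ((L + 1) * ∏ i ∈ Iᶜ, ‖dt (a i) (x k) + c i‖) :=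
    mul_le_mul_of_nonneg_left h3 (by positivity)
  have h10 : ε / (L + 2) * ((L + 1) * ∏ i ∈ Iᶜ, ‖dt (a i) (x k) + c i‖) =
      ε * ((L + 1) / (L + 2)) * ∏ i ∈ Iᶜ, ‖dt (a i) (x k) + c i‖ := by ring
  have h11 : (L + 1) / (L + 2) < 1 := by
    rw [div_lt_one (by positivity)]
    linarith
  have h12 : ε * ((L + 1) / (L + 2)) * ∏ i ∈ Iᶜ, ‖dt (a i) (x k) + c i‖ <
      ε * 1 * ∏ i ∈ Iᶜ, ‖dt (a i) (x k) + c i‖ :=
    mul_lt_mul_of_pos_right (mul_lt_mul_of_pos_left h11 hε) hD
  rw [mul_one] at h12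
  linarith

theorem injPair_fac {m : ℕ} (a : Fin m → Fin n → ℂ) (I J : Finset (Fin m)) (hJI : J ⊆ I)
    (lam mu : Fin m → ℂ) (v : Fin n → ℂ) (hv : ∀ i ∈ J, dt (a i) v = lam i - mu i)
    (hl : ∀ i ∈ I, a i ≠ 0 ∨ lam i ≠ 0) (hm : ∀ i ∈ J, a i ≠ 0 ∨ mu i ≠ 0)
    (hE : Est (∏ i ∈ J, fac (a i) (mu i))) :
    InjPair (∏ i ∈ I, fac (a i) (lam i)) (star' (∏ i ∈ J, fac (a i) (mu i))) := by
  classical
  set q₀ : MvPolynomial (Fin n) ℂ := ∏ i ∈ J, fac (a i) (mu i) with hq₀
  set r : MvPolynomial (Fin n) ℂ := ∏ i ∈ I \ J, fac (a i) (lam i) with hr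
  set p : MvPolynomial (Fin n) ℂ := ∏ i ∈ I, fac (a i) (lam i) with hp
  have hpe : ∀ z, eval z p = eval (z + v) q₀ * eval z r := by
    intro z
    rw [hp, hq₀, hr, map_prod, map_prod, map_prod, ← Finset.prod_sdiff hJI, mul_comm]
    congr 1
    refine Finset.prod_congr rfl fun i hi => ?_
    rw [eval_fac, eval_fac, dt_add', hv i hi]
    ring
  have hq0 : q₀ ≠ 0 := Finset.prod_ne_zero_iff.2 fun i hi => fac_ne_zero (hm i hi)
  have hr0 : r ≠ 0 := Finset.prod_ne_zero_iff.2 fun i hi =>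
    fac_ne_zero (hl i (Finset.mem_sdiff.1 hi).1)
  intro F hF h
  set w : Ent n := ⟨F, hF⟩ with hw
  have hz : QDE (star' q₀) (mulEnt p w) = 0 := by
    apply Subtype.ext
    funext z
    rw [QDE_eq]
    exact h z
  set H : Ent n := trE (-v) (mulEnt r w) with hH
  have hmul : mulEnt q₀ H = trE (-v) (mulEnt p w) := by
    apply Subtype.ext
    funext x
    change eval x q₀ * (eval (x + -v) r * F (x + -v)) = eval (x + -v) p * F (x + -v)
    rw [hpe, neg_add_cancel_right]
    ring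
  have hzero : QDE (star' q₀) (mulEnt q₀ H) = 0 := by
    rw [hmul, QDE_trE, hz, map_zero]
  have hH0 : ∀ z, eval z q₀ * H.1 z = 0 := by
    intro z
    obtain ⟨ρ', K, hE'⟩ := hE ‖z‖
    have h1 := hE' H.1 H.2 0 (fun w _ => by
      have h2 := QDE_eq (star' q₀) (mulEnt q₀ H) w
      rw [hzero] at h2
      change (0 : ℂ) = QD (star' q₀) 1 (fun z => eval z q₀ * H.1 z) w at h2
      rw [← h2, norm_zero]) z le_rfl
    rw [mul_zero] at h1
    exact norm_le_zero_iff.1 h1
  have hH1 := ijEval_mul q₀ hq0 H.1 (Differentiable.continuous H.2) hH0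
  refine ijEval_mul r hr0 F hF.continuous fun z => ?_
  have h1 := hH1 (z + v)
  change eval (z + v + -v) r * F (z + v + -v) = 0 at h1
  rw [add_neg_cancel_right] at h1
  exact h1

theorem arr_good {m : ℕ} (a : Fin m → Fin n → ℂ) (c : Fin m → ℂ)
    (hc : ∀ i, a i ≠ 0 ∨ c i ≠ 0) (R : MvPolynomial (Fin n) ℂ) (hR : SmallR a c R)
    (hR0 : R = 0 ∨ ∀ v : Fin n → ℂ, (∀ i, dt (a i) v = 0) → v = 0)
    (hEst : ∀ (J : Finset (Fin m)) (mu : Fin m → ℂ),
      (∃ v : Fin n → ℂ, v ≠ 0 ∧ ∀ i ∈ J, dt (a i) v = 0) → Est (∏ i ∈ J, fac (a i) (mu i))) :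
    ∃ (Φ : ℝ → ℝ → (Fin n → ℂ) → ℝ) (B₁ : ℝ), Weights (∏ i, fac (a i) (c i) + R) Φ B₁ := by
  classical
  obtain ⟨A, Φ, hA, hup, hlow, hlin, hgood⟩ := arr_weights a
  refine ⟨Φ, 0, ⟨⟨A, fun B hB z => hup B hB z⟩,
    fun B hB K hK => ⟨2 * K ^ 2, fun z => hlow B hB K hK z⟩, fun B₀ => ?_, ?_⟩⟩
  · refine ⟨max (max B₀ 0) (max B₀ 0 ^ 2), fun B hB K _ z => ?_⟩
    have h1 := hlin (max B₀ 0) (le_max_right _ _) B ((le_max_left _ _).trans hB)
      ((le_max_right _ _).trans hB) K z
    have h2 : B₀ * ‖z‖ ≤ max B₀ 0 * ‖z‖ :=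
      mul_le_mul_of_nonneg_right (le_max_left _ _) (norm_nonneg _)
    linarith
  · intro 𝒰 h𝒰 B K b hB hK hb
    have hex : ∀ k, ∃ ρ : Fin n → ℂ, 0 ≤ B k →
        (∀ w, Φ (B k) (K k) (b k + w) ≤ Φ (B k) (K k) (b k) + (dt (cj ρ) w).re +
          Pool.Agent.H60.FB.sq w + 1) ∧
        ∀ i, a i ≠ 0 → min ((B k - 2) * nrm (a i)) (2 * (‖dt (a i) (b k)‖ - nrm (a i))) ≤
          ‖dt (a i) ρ‖ := by
      intro k
      by_cases h0 : 0 ≤ B k
      · obtain ⟨ρ, h1⟩ := hgood (B k) h0 (K k) (b k)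
        exact ⟨ρ, fun _ => h1⟩
      · exact ⟨0, fun h => absurd h h0⟩
    choose ρ hρ using hex
    have hB0 : ∀ᶠ k in (𝒰 : Filter ℕ), 0 ≤ B k := hB.eventually_ge_atTop 0
    refine ⟨fun k => cj (ρ k), fun R => ⟨n * R ^ 2 + 1, ?_⟩, ?_⟩
    · filter_upwards [hB0] with k hk w hw
      have h1 := (hρ k hk).1 w
      have h2 := sq_le_norm w
      have h3 : (n : ℝ) * ‖w‖ ^ 2 ≤ n * R ^ 2 :=
        mul_le_mul_of_nonneg_left (pow_le_pow_left₀ (norm_nonneg _) hw 2) (Nat.cast_nonneg n)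
      linarith
    · set I : Finset (Fin m) := Finset.univ.filter
        (fun i => ∃ C : ℝ, ∀ᶠ k in (𝒰 : Filter ℕ), ‖dt (a i) (b k)‖ ≤ C) with hI
      set J : Finset (Fin m) := Finset.univ.filter
        (fun i => ∃ C : ℝ, ∀ᶠ k in (𝒰 : Filter ℕ), ‖dt (a i) (ρ k)‖ ≤ C) with hJ
      have hJI : J ⊆ I := by
        intro i hi
        rw [hJ, Finset.mem_filter] at hi
        rw [hI, Finset.mem_filter]
        refine ⟨Finset.mem_univ _, ?_⟩
        obtain ⟨C, hC⟩ := hi.2
        by_cases ha : a i = 0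
        · refine ⟨0, Eventually.of_forall fun k => ?_⟩
          rw [ha, dt_zero_left, norm_zero]
        · have hN := nrm_pos ha
          refine ⟨C / 2 + nrm (a i), ?_⟩
          filter_upwards [hC, hB0, hB.eventually_gt_atTop (2 + C / nrm (a i))] with k hk hk0 hkB
          have h1 := (hρ k hk0).2 i ha
          have h2 := h1.trans hk
          have h3 : C < (B k - 2) * nrm (a i) := by
            rw [← div_lt_iff₀ hN]
            linarith
          rcases min_le_iff.1 h2 with h4 | h4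
          · linarith
          · linarith
      -- limits
      have hlamex : ∀ i, ∃ l, i ∈ I → Tendsto (fun k => dt (a i) (b k)) 𝒰 (𝓝 l) := by
        intro i
        by_cases hi : i ∈ I
        · obtain ⟨l, hl⟩ := ultra_lim1 𝒰 _ (Finset.mem_filter.1 hi).2
          exact ⟨l, fun _ => hl⟩
        · exact ⟨0, fun h => absurd h hi⟩
      choose lam hlam using hlamex
      have hmuex : ∀ i, ∃ l, i ∈ J → Tendsto (fun k => dt (a i) (ρ k)) 𝒰 (𝓝 l) := by
        intro i
        by_cases hi : i ∈ J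
        · obtain ⟨l, hl⟩ := ultra_lim1 𝒰 _ (Finset.mem_filter.1 hi).2
          exact ⟨l, fun _ => hl⟩
        · exact ⟨0, fun h => absurd h hi⟩
      choose mu hmu using hmuex
      have hIO : ∀ i, i ∉ I → Tendsto (fun k => ‖dt (a i) (b k)‖) 𝒰 atTop := by
        intro i hi
        refine ultra_unb 𝒰 _ fun h => hi ?_
        rw [hI, Finset.mem_filter]
        exact ⟨Finset.mem_univ _, h⟩
      have hJO : ∀ i, i ∉ J → Tendsto (fun k => ‖dt (a i) (ρ k)‖) 𝒰 atTop := by
        intro i hi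
        refine ultra_unb 𝒰 _ fun h => hi ?_
        rw [hJ, Finset.mem_filter]
        exact ⟨Finset.mem_univ _, h⟩
      obtain ⟨hν, hνl⟩ := lim_fac a c 𝒰 b I lam (fun i hi => hlam i hi) hIO
      obtain ⟨hμ, hμl⟩ := lim_fac a c 𝒰 ρ J mu (fun i hi => hmu i hi) hJO
      -- the points are far out
      have hbinf : Tendsto (fun k => ‖b k‖) 𝒰 atTop := by
        have h1 : Tendsto (fun k => B k ^ 2) 𝒰 atTop :=
          (tendsto_pow_atTop two_ne_zero).comp hB
        have h2 : Tendsto (fun k => (√n + 1) * ‖b k‖) 𝒰 atTop := by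
          refine tendsto_atTop_mono (fun k => ?_) h1
          have h3 := eu_le_norm (b k)
          rw [eu_norm] at h3
          have h4 := hb k
          have h5 := norm_nonneg (b k)
          linarith
        exact (tendsto_const_mul_atTop_of_pos (by positivity)).1 h2
      -- the linear map given by the forms of `J`
      let T : (Fin n → ℂ) →ₗ[ℂ] (Fin m → ℂ) :=
        LinearMap.pi (fun i => if i ∈ J then dl (a i) else 0)
      have hT : ∀ x i, T x i = if i ∈ J then dt (a i) x else 0 := by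
        intro x i
        change (if i ∈ J then dl (a i) else 0 : (Fin n → ℂ) →ₗ[ℂ] ℂ) x = _
        split_ifs
        · rfl
        · rfl
      have hTlim : ∀ (x : ℕ → Fin n → ℂ) (l : Fin m → ℂ),
          (∀ i ∈ J, Tendsto (fun k => dt (a i) (x k)) 𝒰 (𝓝 (l i))) →
          Tendsto (fun k => T (x k)) 𝒰 (𝓝 (fun i => if i ∈ J then l i else 0)) := by
        intro x l h
        rw [tendsto_pi_nhds]
        intro i
        by_cases hi : i ∈ J
        · simp only [hT, if_pos hi]
          exact h i hi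
        · simp only [hT, if_neg hi]
          exact tendsto_const_nhds
      obtain ⟨v, hv⟩ : ∃ v, T v = fun i => if i ∈ J then lam i - mu i else 0 := by
        have h1 : Tendsto (fun k => T (b k - ρ k)) 𝒰
            (𝓝 (fun i => if i ∈ J then lam i - mu i else 0)) := by
          refine hTlim _ _ fun i hi => ?_
          simp only [dt_sub']
          exact (hlam i (hJI hi)).sub (hmu i hi)
        have h2 : IsClosed ((LinearMap.range T : Submodule ℂ (Fin m → ℂ)) : Set (Fin m → ℂ)) :=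
          Submodule.closed_of_finiteDimensional _
        exact h2.mem_of_tendsto h1 (Eventually.of_forall fun k => ⟨_, rfl⟩)
      have hv' : ∀ i ∈ J, dt (a i) v = (lam i + c i) - (mu i + c i) := by
        intro i hi
        have h1 := congrFun hv i
        rw [hT, if_pos hi] at h1
        simp only [if_pos hi] at h1
        rw [h1]
        ring
      have hkerv : ∃ v : Fin n → ℂ, v ≠ 0 ∧ ∀ i ∈ J, dt (a i) v = 0 := by
        by_contra hcon
        push Not at hcon
        have hinj : LinearMap.ker T = ⊥ := by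
          rw [LinearMap.ker_eq_bot']
          intro x hx
          by_contra hx0
          obtain ⟨i, hi, hne⟩ := hcon x hx0
          apply hne
          have := congrFun hx i
          rwa [hT, if_pos hi] at this
        obtain ⟨Kc, -, hKc⟩ := T.exists_antilipschitzWith hinj
        have h1 := hTlim b lam fun i hi => hlam i (hJI hi)
        set L : Fin m → ℂ := fun i => if i ∈ J then lam i else 0 with hL
        have h2 : ∀ᶠ k in (𝒰 : Filter ℕ), ‖T (b k)‖ ≤ ‖L‖ + 1 := by
          filter_upwards [h1.norm.eventually_lt_const (lt_add_one ‖L‖)] with k hk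
          exact hk.le
        have h3 : ∀ᶠ k in (𝒰 : Filter ℕ), B k ^ 2 ≤ √n * (Kc * (‖L‖ + 1)) := by
          filter_upwards [h2] with k hk
          have h4 := hKc.le_mul_dist (b k) 0
          rw [map_zero, dist_zero_right, dist_zero_right] at h4
          have h5 : ‖b k‖ ≤ Kc * (‖L‖ + 1) :=
            h4.trans (mul_le_mul_of_nonneg_left hk Kc.2)
          have h6 := eu_le_norm (b k)
          rw [eu_norm] at h6
          exact ((hb k).trans h6).trans (mul_le_mul_of_nonneg_left h5 (Real.sqrt_nonneg _))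
        have h4 : ∀ᶠ k in (𝒰 : Filter ℕ), √n * (Kc * (‖L‖ + 1)) < B k ^ 2 := by
          have h5 : Tendsto (fun k => B k ^ 2) 𝒰 atTop :=
            (tendsto_pow_atTop two_ne_zero).comp hB
          exact h5.eventually_gt_atTop _
        obtain ⟨k, hk1, hk2⟩ := (h3.and h4).exists
        linarith
      have hρinf : R = 0 ∨ Tendsto (fun k => ‖ρ k‖) 𝒰 atTop := by
        rcases hR0 with h0 | h0
        · exact Or.inl h0
        · right
          rw [tendsto_atTop]
          intro C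
          by_contra hcon
          rw [← Ultrafilter.eventually_not] at hcon
          have hall : ∀ i, i ∈ J := by
            intro i
            rw [hJ, Finset.mem_filter]
            refine ⟨Finset.mem_univ _, (∑ j, ‖a i j‖) * C, ?_⟩
            filter_upwards [hcon] with k hk
            have h1 : ‖ρ k‖ ≤ C := (not_le.1 hk).le
            unfold dt
            refine (norm_sum_le _ _).trans ?_
            rw [Finset.sum_mul]
            refine Finset.sum_le_sum fun j _ => ?_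
            rw [norm_mul]
            exact mul_le_mul_of_nonneg_left ((norm_le_pi_norm _ _).trans h1) (norm_nonneg _)
          obtain ⟨v, hv0, hv⟩ := hkerv
          exact hv0 (h0 v fun i => hv i (hall i))
      have hνR := lim_R a c 𝒰 b I lam (fun i hi => hlam i hi) hIO R hR (Or.inr hbinf)
      have hμR := lim_R a c 𝒰 ρ J mu (fun i hi => hmu i hi) hJO R hR hρinf
      have hνl' : ∀ w, Tendsto (fun k => eval (b k + w) (∏ i, fac (a i) (c i) + R) /
          ∏ i ∈ Iᶜ, (dt (a i) (b k) + c i)) 𝒰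
          (𝓝 (eval w (∏ i ∈ I, fac (a i) (lam i + c i)))) := by
        intro w
        have h1 := (hνl w).add (hνR w)
        rw [add_zero] at h1
        refine h1.congr fun k => ?_
        rw [map_add, add_div]
      have hμl' : ∀ w, Tendsto (fun k => eval (ρ k + w) (∏ i, fac (a i) (c i) + R) /
          ∏ i ∈ Jᶜ, (dt (a i) (ρ k) + c i)) 𝒰
          (𝓝 (eval w (∏ i ∈ J, fac (a i) (mu i + c i)))) := by
        intro w
        have h1 := (hμl w).add (hμR w)
        rw [add_zero] at h1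
        refine h1.congr fun k => ?_
        rw [map_add, add_div]
      -- nonvanishing factors
      have hlne : ∀ i ∈ I, a i ≠ 0 ∨ lam i + c i ≠ 0 := by
        intro i hi
        by_cases ha : a i = 0
        · right
          have h1 := hlam i hi
          simp only [ha, dt_zero_left] at h1
          have h2 : lam i = 0 := tendsto_nhds_unique h1 tendsto_const_nhds
          rw [h2, zero_add]
          exact (hc i).resolve_left (fun h => h ha)
        · exact Or.inl ha
      have hmne : ∀ i ∈ J, a i ≠ 0 ∨ mu i + c i ≠ 0 := by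
        intro i hi
        by_cases ha : a i = 0
        · right
          have h1 := hmu i hi
          simp only [ha, dt_zero_left] at h1
          have h2 : mu i = 0 := tendsto_nhds_unique h1 tendsto_const_nhds
          rw [h2, zero_add]
          exact (hc i).resolve_left (fun h => h ha)
        · exact Or.inl ha
      refine ⟨∏ i ∈ I, fac (a i) (lam i + c i), star' (∏ i ∈ J, fac (a i) (mu i + c i)),
        fun k => ∏ i ∈ Iᶜ, (dt (a i) (b k) + c i),
        fun k => (starRingEnd ℂ) (∏ i ∈ Jᶜ, (dt (a i) (ρ k) + c i)), 1, one_pos, ?_, hνl', ?_, ?_⟩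
      · filter_upwards [hν, hμ] with k h1 h2
        refine ⟨h1, ?_⟩
        rw [Complex.norm_conj]
        exact h2
      · intro w
        have h1 := (Complex.continuous_conj.tendsto _).comp (hμl' (cj w))
        rw [eval_star']
        refine h1.congr fun k => ?_
        simp only [Function.comp]
        have e : cj (cj (ρ k) + w) = ρ k + cj w := by
          funext j
          change (starRingEnd ℂ) ((starRingEnd ℂ) (ρ k j) + w j) = ρ k j + (starRingEnd ℂ) (w j)
          rw [map_add, Complex.conj_conj]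
        rw [eval_star', map_div₀, e]
      · exact injPair_fac a I J hJI (fun i => lam i + c i) (fun i => mu i + c i) v hv' hlne hmne
          (hEst J (fun i => mu i + c i) hkerv)

end Pool.Agent.H5.LF
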