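import Mathlib

/-!
Products of orthogonal projections: the paths of all words have uniformly bounded length
(MP_6e521b_an, products of linear polynomials).
-/

set_option autoImplicit false

namespace Pool.Agent.H5.LF

open scoped InnerProductSpace

variable {E ι : Type*} [NormedAddCommGroup E] [InnerProductSpace ℂ E]

/-- A family of orthogonal projections. -/
structure IsProj (p : ι → E →ₗ[ℂ] E) : Prop where
  idem : ∀ j x, p j (p j x) = p j x
  symm : ∀ j x y, ⟪p j x, y⟫_ℂ = ⟪x, p j y⟫_ℂ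

/-- the end of the path of a word -/
def fin (p : ι → E →ₗ[ℂ] E) : List ι → E → E
  | [], x => x
  | j :: w, x => fin p w (p j x)

/-- the length of the path of a word -/
noncomputable def len (p : ι → E →ₗ[ℂ] E) : List ι → E → ℝ
  | [], _ => 0
  | j :: w, x => ‖x - p j x‖ + len p w (p j x)

variable {p : ι → E →ₗ[ℂ] E}

theorem len_nonneg (w : List ι) (x : E) : 0 ≤ len p w x := by
  induction w generalizing x with
  | nil => exact le_rfl
  | cons j w ih => exact add_nonneg (norm_nonneg _) (ih _)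

theorem fin_append (u w : List ι) (x : E) : fin p (u ++ w) x = fin p w (fin p u x) := by
  induction u generalizing x with
  | nil => rfl
  | cons j u ih => exact ih _

theorem len_append (u w : List ι) (x : E) :
    len p (u ++ w) x = len p u x + len p w (fin p u x) := by
  induction u generalizing x with
  | nil => simp [len, fin]
  | cons j u ih =>
    have := ih (p j x)
    simp only [List.cons_append, len, fin, this]
    ring

theorem fin_add (w : List ι) (x y : E) : fin p w (x + y) = fin p w x + fin p w y := by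
  induction w generalizing x y with
  | nil => rfl
  | cons j w ih => simp only [fin, map_add, ih]

theorem fin_real_smul (w : List ι) (t : ℝ) (x : E) :
    fin p w ((t : ℂ) • x) = (t : ℂ) • fin p w x := by
  induction w generalizing x with
  | nil => rfl
  | cons j w ih => simp only [fin, map_smul, ih]

theorem len_real_smul (w : List ι) (t : ℝ) (ht : 0 ≤ t) (x : E) :
    len p w ((t : ℂ) • x) = t * len p w x := by
  induction w generalizing x with
  | nil => simp [len]
  | cons j w ih =>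
    simp only [len, map_smul, ih, ← smul_sub, norm_smul, Complex.norm_real,
      Real.norm_of_nonneg ht]
    ring

theorem len_add_le (w : List ι) (x y : E) : len p w (x + y) ≤ len p w x + len p w y := by
  induction w generalizing x y with
  | nil => simp [len]
  | cons j w ih =>
    simp only [len, map_add]
    have h1 : x + y - (p j x + p j y) = (x - p j x) + (y - p j y) := by abel
    rw [h1]
    have h2 := norm_add_le (x - p j x) (y - p j y)
    have h3 := ih (p j x) (p j y)
    linarith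

theorem IsProj.pyth (hp : IsProj p) (j : ι) (x : E) :
    ‖x‖ ^ 2 = ‖p j x‖ ^ 2 + ‖x - p j x‖ ^ 2 := by
  have h1 : ⟪p j x, x - p j x⟫_ℂ = 0 := by
    rw [hp.symm, map_sub, hp.idem, sub_self, inner_zero_right]
  have h2 : x = p j x + (x - p j x) := by abel
  have h3 := @norm_add_sq_eq_norm_sq_add_norm_sq_of_inner_eq_zero ℂ E _ _ _ (p j x) (x - p j x) h1
  rw [← h2] at h3
  nlinarith [h3]

theorem IsProj.norm_le (hp : IsProj p) (j : ι) (x : E) : ‖p j x‖ ≤ ‖x‖ := by
  have h := hp.pyth j x
  exact le_of_sq_le_sq (by nlinarith [sq_nonneg ‖x - p j x‖]) (norm_nonneg _)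

theorem IsProj.sub_le (hp : IsProj p) (j : ι) (x y : E) (hy : p j y = y) :
    ‖x - p j x‖ ≤ ‖x - y‖ := by
  have h := hp.pyth j (x - y)
  rw [map_sub, hy] at h
  have h2 : x - y - (p j x - y) = x - p j x := by abel
  rw [h2] at h
  exact le_of_sq_le_sq (by nlinarith [sq_nonneg ‖p j x - y‖]) (norm_nonneg _)

theorem IsProj.fin_le (hp : IsProj p) (w : List ι) (x : E) : ‖fin p w x‖ ≤ ‖x‖ := by
  induction w generalizing x with
  | nil => exact le_rfl
  | cons j w ih => exact (ih _).trans (hp.norm_le j x)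

/-- the loss of a word -/
noncomputable def loss (p : ι → E →ₗ[ℂ] E) (w : List ι) (x : E) : ℝ :=
  ‖x‖ ^ 2 - ‖fin p w x‖ ^ 2

theorem IsProj.loss_nonneg (hp : IsProj p) (w : List ι) (x : E) : 0 ≤ loss p w x := by
  have := hp.fin_le w x
  unfold loss
  nlinarith [norm_nonneg (fin p w x)]

theorem loss_append (u w : List ι) (x : E) :
    loss p (u ++ w) x = loss p u x + loss p w (fin p u x) := by
  unfold loss
  rw [fin_append]
  ring

theorem IsProj.visit (hp : IsProj p) (w : List ι) (j : ι) (hj : j ∈ w) (x z : E) :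
    ‖z - p j z‖ ≤ ‖z - x‖ + len p w x := by
  induction w generalizing x with
  | nil => exact absurd hj List.not_mem_nil
  | cons i w ih =>
    have h1 : ‖z - p i x‖ ≤ ‖z - x‖ + ‖x - p i x‖ := by
      have : z - p i x = (z - x) + (x - p i x) := by abel
      rw [this]
      exact norm_add_le _ _
    simp only [len]
    rcases List.mem_cons.1 hj with rfl | hj
    · have h2 := hp.sub_le j z (p j x) (hp.idem j x)
      have h3 := len_nonneg (p := p) w (p j x)
      linarith
    · have := ih hj (p i x)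
      linarith

/-- the shortest initial segment of a word which contains all letters of `S` -/
theorem exists_block [DecidableEq ι] (w : List ι) (S : Finset ι) (hS : S.Nonempty)
    (h : S ⊆ w.toFinset) :
    ∃ u j w', w = u ++ j :: w' ∧ j ∈ S ∧ j ∉ u ∧ ∀ i ∈ S, i ≠ j → i ∈ u := by
  induction w generalizing S with
  | nil =>
    obtain ⟨a, ha⟩ := hS
    exact absurd (h ha) (by simp)
  | cons a w ih =>
    by_cases hS' : (S.erase a).Nonempty
    · obtain ⟨u, j, w', hw, hj, hju, hi⟩ := ih (S.erase a) hS' (by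
        intro i hi
        have h1 := h (Finset.mem_of_mem_erase hi)
        rw [List.toFinset_cons, Finset.mem_insert] at h1
        exact h1.resolve_left (Finset.ne_of_mem_erase hi))
      refine ⟨a :: u, j, w', by rw [hw]; rfl, Finset.mem_of_mem_erase hj, ?_, ?_⟩
      · rw [List.mem_cons, not_or]
        exact ⟨Finset.ne_of_mem_erase hj, hju⟩
      · intro i hiS hij
        by_cases hia : i = a
        · exact List.mem_cons.2 (Or.inl hia)
        · exact List.mem_cons.2 (Or.inr (hi i (Finset.mem_erase.2 ⟨hia, hiS⟩) hij))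
    · have hSa : ∀ i ∈ S, i = a := by
        intro i hi
        by_contra hne
        exact hS' ⟨i, Finset.mem_erase.2 ⟨hne, hi⟩⟩
      obtain ⟨b, hb⟩ := hS
      have hba := hSa b hb
      subst hba
      exact ⟨[], b, w, rfl, hb, List.not_mem_nil, fun i hi hne => absurd (hSa i hi) hne⟩

/-- the common fixed vectors -/
def fixS (p : ι → E →ₗ[ℂ] E) (S : Finset ι) : Submodule ℂ E where
  carrier := {x | ∀ j ∈ S, p j x = x}
  add_mem' := fun {x y} hx hy j hj => by rw [map_add, hx j hj, hy j hj]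
  zero_mem' := fun j _ => map_zero _
  smul_mem' := fun c x hx j hj => by rw [map_smul, hx j hj]

theorem fin_fix {S : Finset ι} {w : List ι} (hw : ∀ j ∈ w, j ∈ S) {x : E}
    (hx : x ∈ fixS p S) : fin p w x = x := by
  induction w generalizing x with
  | nil => rfl
  | cons j w ih =>
    have h1 : p j x = x := hx j (hw j List.mem_cons_self)
    simp only [fin]
    rw [h1]
    exact ih (fun i hi => hw i (List.mem_cons_of_mem _ hi)) hx

theorem len_fix_add {S : Finset ι} {w : List ι} (hw : ∀ j ∈ w, j ∈ S) {x y : E}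
    (hx : x ∈ fixS p S) : len p w (x + y) = len p w y := by
  induction w generalizing x y with
  | nil => rfl
  | cons j w ih =>
    have h1 : p j x = x := hx j (hw j List.mem_cons_self)
    simp only [len, map_add]
    rw [h1, ih (fun i hi => hw i (List.mem_cons_of_mem _ hi)) hx]
    congr 2
    abel

theorem IsProj.perp (hp : IsProj p) {S : Finset ι} {j : ι} (hj : j ∈ S) {x : E}
    (hx : x ∈ (fixS p S)ᗮ) : p j x ∈ (fixS p S)ᗮ := by
  rw [Submodule.mem_orthogonal] at hx ⊢
  intro u hu
  have h1 := hx u hu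
  have h2 : p j u = u := hu j hj
  rw [← hp.symm, h2]
  exact h1

theorem IsProj.fin_perp (hp : IsProj p) {S : Finset ι} {w : List ι} (hw : ∀ j ∈ w, j ∈ S)
    {x : E} (hx : x ∈ (fixS p S)ᗮ) : fin p w x ∈ (fixS p S)ᗮ := by
  induction w generalizing x with
  | nil => exact hx
  | cons j w ih =>
    exact ih (fun i hi => hw i (List.mem_cons_of_mem _ hi)) (hp.perp (hw j List.mem_cons_self) hx)

/-- linear regularity -/
theorem regular [FiniteDimensional ℂ E] (p : ι → E →ₗ[ℂ] E) (S : Finset ι) :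
    ∃ M : ℝ, 1 ≤ M ∧ ∀ x ∈ (fixS p S)ᗮ, ∀ δ : ℝ, 0 ≤ δ → (∀ j ∈ S, ‖x - p j x‖ ≤ δ) →
      ‖x‖ ≤ M * δ := by
  let T : ((fixS p S)ᗮ : Submodule ℂ E) →ₗ[ℂ] ((j : S) → E) :=
    LinearMap.pi (fun j => (LinearMap.id - p j.1) ∘ₗ (fixS p S)ᗮ.subtype)
  have hT : LinearMap.ker T = ⊥ := by
    rw [LinearMap.ker_eq_bot']
    intro x hx
    have h1 : (x : E) ∈ fixS p S := by
      intro j hj
      have h2 := congrFun hx ⟨j, hj⟩
      have h3 : (x : E) - p j x = 0 := h2
      exact (sub_eq_zero.1 h3).symm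
    have h4 := (Submodule.mem_orthogonal _ _).1 x.2 x h1
    exact Subtype.ext (inner_self_eq_zero.1 h4)
  obtain ⟨K, -, hK⟩ := T.exists_antilipschitzWith hT
  refine ⟨max K 1, le_max_right _ _, fun x hx δ hδ h => ?_⟩
  have h1 := hK.le_mul_dist ⟨x, hx⟩ 0
  rw [map_zero, dist_zero_right, dist_zero_right] at h1
  have h2 : ‖T ⟨x, hx⟩‖ ≤ δ := by
    rw [pi_norm_le_iff_of_nonneg hδ]
    intro j
    exact h j.1 j.2
  have h3 : ‖x‖ ≤ K * ‖T ⟨x, hx⟩‖ := h1
  calc ‖x‖ ≤ K * ‖T ⟨x, hx⟩‖ := h3
    _ ≤ K * δ := mul_le_mul_of_nonneg_left h2 K.2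
    _ ≤ max K 1 * δ := mul_le_mul_of_nonneg_right (le_max_left _ _) hδ

theorem path_step [FiniteDimensional ℂ E] (hp : IsProj p) (S : Finset ι) (hS : S.Nonempty)
    (C' : ℝ) (hC' : 0 ≤ C')
    (ih : ∀ w : List ι, (∃ j ∈ S, ∀ i ∈ w, i ∈ S ∧ i ≠ j) → ∀ x,
      len p w x ≤ C' * √(loss p w x)) :
    ∃ C : ℝ, 0 ≤ C ∧ ∀ w : List ι, (∀ i ∈ w, i ∈ S) → ∀ x, len p w x ≤ C * √(loss p w x) := by
  classical
  obtain ⟨M₀, hM₀, hreg⟩ := regular p S
  -- blocks
  have hblk : ∀ (u : List ι) (j : ι), j ∈ S → j ∉ u → (∀ i ∈ S, i ≠ j → i ∈ u) →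
      (∀ i ∈ u, i ∈ S) → ∀ x, len p (u ++ [j]) x ≤ (C' + 1) * √(loss p (u ++ [j]) x) := by
    intro u j hj hju _ huS x
    have h1 := ih u ⟨j, hj, fun i hi => ⟨huS i hi, fun h => hju (h ▸ hi)⟩⟩ x
    rw [len_append, loss_append]
    have h2 : len p [j] (fin p u x) = ‖fin p u x - p j (fin p u x)‖ := by simp [len]
    have h3 : loss p [j] (fin p u x) = ‖fin p u x - p j (fin p u x)‖ ^ 2 := by
      have := hp.pyth j (fin p u x)
      simp only [loss, fin]
      linarith
    rw [h2, h3]
    have h4 := hp.loss_nonneg u x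
    have h5 : √(loss p u x) ≤ √(loss p u x + ‖fin p u x - p j (fin p u x)‖ ^ 2) :=
      Real.sqrt_le_sqrt (by nlinarith [sq_nonneg ‖fin p u x - p j (fin p u x)‖])
    have h6 : ‖fin p u x - p j (fin p u x)‖ ≤
        √(loss p u x + ‖fin p u x - p j (fin p u x)‖ ^ 2) :=
      Real.le_sqrt_of_sq_le (by linarith)
    have h7 := mul_le_mul_of_nonneg_left h5 hC'
    linarith
  set M : ℝ := M₀ * (C' + 1) with hM
  have hM1 : 1 ≤ M := by rw [hM]; nlinarith
  -- large loss of a block
  have hloss : ∀ (u : List ι) (j : ι), j ∈ S → j ∉ u → (∀ i ∈ S, i ≠ j → i ∈ u) →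
      (∀ i ∈ u, i ∈ S) → ∀ x ∈ (fixS p S)ᗮ, ‖x‖ ≤ M * √(loss p (u ++ [j]) x) := by
    intro u j hj hju hall huS x hx
    have h1 := hblk u j hj hju hall huS x
    have h2 : ∀ i ∈ S, ‖x - p i x‖ ≤ (C' + 1) * √(loss p (u ++ [j]) x) := by
      intro i hi
      have h3 : i ∈ u ++ [j] := by
        by_cases hij : i = j
        · simp [hij]
        · exact List.mem_append.2 (Or.inl (hall i hi hij))
      have h4 := hp.visit (u ++ [j]) i h3 x x
      rw [sub_self, norm_zero, zero_add] at h4
      exact h4.trans h1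
    have h3 := hreg x hx _ (by positivity) h2
    rw [hM, mul_assoc]
    exact h3
  set Λ : ℝ := 2 * M ^ 2 * (C' + 1) with hΛ
  have hΛC : C' ≤ Λ := by
    rw [hΛ]
    nlinarith [mul_nonneg hC' (by nlinarith : 0 ≤ M ^ 2 - 1)]
  -- bounded length on the complement
  have hbd : ∀ (N : ℕ) (w : List ι), w.length ≤ N → (∀ i ∈ w, i ∈ S) →
      ∀ x ∈ (fixS p S)ᗮ, len p w x ≤ Λ * ‖x‖ := by
    intro N
    induction N with
    | zero =>
      intro w hw _ x _
      have : w = [] := List.length_eq_zero_iff.1 (Nat.le_zero.1 hw)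
      subst this
      have h0 : 0 ≤ Λ := hC'.trans hΛC
      simpa [len] using mul_nonneg h0 (norm_nonneg x)
    | succ N ihN =>
      intro w hw hwS x hx
      by_cases hall : S ⊆ w.toFinset
      · obtain ⟨u, j, w', rfl, hj, hju, hi⟩ := exists_block w S hS hall
        have hu : ∀ i ∈ u, i ∈ S := fun i hi => hwS i (List.mem_append.2 (Or.inl hi))
        have hw' : ∀ i ∈ w', i ∈ S := fun i hi =>
          hwS i (List.mem_append.2 (Or.inr (List.mem_cons_of_mem _ hi)))
        have e : u ++ j :: w' = (u ++ [j]) ++ w' := by simp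
        rw [e, len_append]
        have h1 := hblk u j hj hju hi hu x
        have h2 := hloss u j hj hju hi hu x hx
        have hbS : ∀ i ∈ u ++ [j], i ∈ S := by
          intro i hi
          rcases List.mem_append.1 hi with h | h
          · exact hu i h
          · rw [List.mem_singleton.1 h]; exact hj
        have h3 := hp.fin_perp hbS hx
        have h4 := ihN w' (by simp at hw; omega) hw' _ h3
        have hl0 := hp.loss_nonneg (u ++ [j]) x
        set l := loss p (u ++ [j]) x with hl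
        have h5 : √l ≤ ‖x‖ := by
          rw [Real.sqrt_le_left (norm_nonneg _), hl]
          unfold loss
          nlinarith [sq_nonneg ‖fin p (u ++ [j]) x‖]
        have h6 : ‖fin p (u ++ [j]) x‖ ^ 2 = ‖x‖ ^ 2 - l := by
          rw [hl]
          unfold loss
          ring
        have h7 : ‖x‖ ^ 2 ≤ M ^ 2 * l := by
          have h8 : ‖x‖ ^ 2 ≤ (M * √l) ^ 2 := by
            have := norm_nonneg x
            nlinarith [h2]
          rwa [mul_pow, Real.sq_sqrt hl0] at h8
        have hM0 : (0 : ℝ) < M ^ 2 := by positivity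
        have h8 : ‖fin p (u ++ [j]) x‖ ≤ (1 - 1 / (2 * M ^ 2)) * ‖x‖ := by
          have h9 : 1 / (2 * M ^ 2) ≤ 1 / 2 := by
            apply one_div_le_one_div_of_le (by norm_num)
            nlinarith
          have h10 : l ≥ ‖x‖ ^ 2 / M ^ 2 := by
            rw [ge_iff_le, div_le_iff₀ hM0]
            linarith
          apply le_of_sq_le_sq _ (mul_nonneg (by linarith) (norm_nonneg _))
          rw [h6, mul_pow]
          have h11 : (1 - 1 / (2 * M ^ 2)) ^ 2 = 1 - 1 / M ^ 2 + (1 / (2 * M ^ 2)) ^ 2 := by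
            field_simp
            ring
          rw [h11]
          have h12 : ‖x‖ ^ 2 / M ^ 2 = 1 / M ^ 2 * ‖x‖ ^ 2 := by ring
          have h13 : 0 ≤ (1 / (2 * M ^ 2)) ^ 2 * ‖x‖ ^ 2 := by positivity
          nlinarith
        have h14 : Λ * ‖fin p (u ++ [j]) x‖ ≤ Λ * ((1 - 1 / (2 * M ^ 2)) * ‖x‖) :=
          mul_le_mul_of_nonneg_left h8 (hC'.trans hΛC)
        have h15 : Λ * ((1 - 1 / (2 * M ^ 2)) * ‖x‖) = Λ * ‖x‖ - (C' + 1) * ‖x‖ := by
          rw [hΛ]
          field_simp
        have h16 : (C' + 1) * √l ≤ (C' + 1) * ‖x‖ :=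
          mul_le_mul_of_nonneg_left h5 (by linarith)
        linarith
      · rw [Finset.not_subset] at hall
        obtain ⟨j, hjS, hj⟩ := hall
        rw [List.mem_toFinset] at hj
        have h1 := ih w ⟨j, hjS, fun i hi => ⟨hwS i hi, fun h => hj (h ▸ hi)⟩⟩ x
        have h2 : √(loss p w x) ≤ ‖x‖ := by
          rw [Real.sqrt_le_left (norm_nonneg _)]
          unfold loss
          nlinarith [sq_nonneg ‖fin p w x‖]
        calc len p w x ≤ C' * √(loss p w x) := h1
          _ ≤ C' * ‖x‖ := mul_le_mul_of_nonneg_left h2 hC'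
          _ ≤ Λ * ‖x‖ := mul_le_mul_of_nonneg_right hΛC (norm_nonneg _)
  refine ⟨C' + Λ * M, add_nonneg hC' (mul_nonneg (hC'.trans hΛC) (by linarith)),
    fun w hwS x => ?_⟩
  have hs0 := Real.sqrt_nonneg (loss p w x)
  by_cases hall : S ⊆ w.toFinset
  · obtain ⟨u, j, w', rfl, hj, hju, hi⟩ := exists_block w S hS hall
    have hu : ∀ i ∈ u, i ∈ S := fun i hi => hwS i (List.mem_append.2 (Or.inl hi))
    have _ : (fixS p S).HasOrthogonalProjection := inferInstance
    obtain ⟨x₁, hx₁, x₂, hx₂, hx⟩ := (fixS p S).exists_add_mem_mem_orthogonal x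
    have e : u ++ j :: w' = (u ++ [j]) ++ w' := by simp
    have hbS : ∀ i ∈ u ++ [j], i ∈ S := by
      intro i hi
      rcases List.mem_append.1 hi with h | h
      · exact hu i h
      · rw [List.mem_singleton.1 h]; exact hj
    have h1 : len p (u ++ j :: w') x = len p (u ++ j :: w') x₂ := by
      rw [hx]
      exact len_fix_add hwS hx₁
    have h2 := hbd _ (u ++ j :: w') le_rfl hwS x₂ hx₂
    have h3 := hloss u j hj hju hi hu x₂ hx₂
    have horth : ∀ y ∈ (fixS p S)ᗮ, ‖x₁ + y‖ ^ 2 = ‖x₁‖ ^ 2 + ‖y‖ ^ 2 := by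
      intro y hy
      have h0 := (Submodule.mem_orthogonal _ _).1 hy x₁ hx₁
      have := @norm_add_sq_eq_norm_sq_add_norm_sq_of_inner_eq_zero ℂ E _ _ _ x₁ y h0
      nlinarith [this]
    have h4 : loss p (u ++ [j]) x = loss p (u ++ [j]) x₂ := by
      unfold loss
      rw [hx, fin_add, fin_fix hbS hx₁, horth _ hx₂, horth _ (hp.fin_perp hbS hx₂)]
      ring
    have h5 : loss p (u ++ [j]) x ≤ loss p (u ++ j :: w') x := by
      have h50 := loss_append (p := p) (u ++ [j]) w' x
      rw [e, h50]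
      linarith [hp.loss_nonneg w' (fin p (u ++ [j]) x)]
    have h6 : √(loss p (u ++ [j]) x₂) ≤ √(loss p (u ++ j :: w') x) := by
      rw [← h4]
      exact Real.sqrt_le_sqrt h5
    have h7 : M * √(loss p (u ++ [j]) x₂) ≤ M * √(loss p (u ++ j :: w') x) :=
      mul_le_mul_of_nonneg_left h6 (by linarith)
    have h8 : Λ * ‖x₂‖ ≤ Λ * (M * √(loss p (u ++ j :: w') x)) :=
      mul_le_mul_of_nonneg_left (h3.trans h7) (hC'.trans hΛC)
    have h9 : 0 ≤ C' * √(loss p (u ++ j :: w') x) := mul_nonneg hC' hs0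
    rw [h1]
    nlinarith
  · rw [Finset.not_subset] at hall
    obtain ⟨j, hjS, hj⟩ := hall
    rw [List.mem_toFinset] at hj
    have h1 := ih w ⟨j, hjS, fun i hi => ⟨hwS i hi, fun h => hj (h ▸ hi)⟩⟩ x
    have h2 : 0 ≤ Λ * M * √(loss p w x) :=
      mul_nonneg (mul_nonneg (hC'.trans hΛC) (by linarith)) hs0
    linarith

theorem path_bound [FiniteDimensional ℂ E] (hp : IsProj p) (S : Finset ι) :
    ∃ C : ℝ, 0 ≤ C ∧ ∀ w : List ι, (∀ i ∈ w, i ∈ S) → ∀ x, len p w x ≤ C * √(loss p w x) := by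
  classical
  induction S using Finset.strongInduction with
  | H S ih =>
    rcases S.eq_empty_or_nonempty with rfl | hS
    · refine ⟨0, le_rfl, fun w hw x => ?_⟩
      cases w with
      | nil => simp [len]
      | cons j w => exact absurd (hw j List.mem_cons_self) (Finset.notMem_empty j)
    · have h1 : ∀ j : S, ∃ C : ℝ, 0 ≤ C ∧ ∀ w : List ι, (∀ i ∈ w, i ∈ S.erase j) → ∀ x,
          len p w x ≤ C * √(loss p w x) := fun j => ih _ (Finset.erase_ssubset j.2)
      choose c hc0 hc using h1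
      refine path_step hp S hS (∑ j : S, c j) (Finset.sum_nonneg fun j _ => hc0 j) ?_
      rintro w ⟨j, hj, hw⟩ x
      have h2 := hc ⟨j, hj⟩ w (fun i hi => Finset.mem_erase.2 ⟨(hw i hi).2, (hw i hi).1⟩) x
      refine h2.trans (mul_le_mul_of_nonneg_right ?_ (Real.sqrt_nonneg _))
      exact Finset.single_le_sum (f := fun j : S => c j) (fun j _ => hc0 j) (Finset.mem_univ _)

/-- The paths of all words are uniformly bounded. -/
theorem path_bounded [FiniteDimensional ℂ E] [Fintype ι] (hp : IsProj p) :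
    ∃ C : ℝ, 0 ≤ C ∧ ∀ (w : List ι) (x : E), len p w x ≤ C * ‖x‖ := by
  obtain ⟨C, hC, h⟩ := path_bound hp (Finset.univ : Finset ι)
  refine ⟨C, hC, fun w x => (h w (fun i _ => Finset.mem_univ i) x).trans ?_⟩
  apply mul_le_mul_of_nonneg_left _ hC
  rw [Real.sqrt_le_left (norm_nonneg _)]
  unfold loss
  nlinarith [sq_nonneg ‖fin p w x‖]

end Pool.Agent.H5.LF
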